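import Pool.Agent.H77.OL.Count

/-!
The core bound: few words are multiplied fast.
-/

namespace Pool.Agent.H77.OL

open Pool.Agent.H77.RT

variable {K : Type} [DecidableEq K] {Γ : K → Type} {Q : Type} {b : ℕ}

/-- what a successful run gives -/
structure Sys.Fine (M : Sys K Γ Q b) (α E : ℝ) (nb Δ Tmax : ℕ) {N : ℕ} (w : Fin N → Fin b) : Prop where
  ex : ∃ T ≤ Tmax, M.Mono w T ∧ ∀ n ≤ nb, ∃ t ≤ T, N < M.h w M.inp t + (n + Δ) ∧ M.App α E w t n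

theorem core_arith {d v i i₀ : ℕ} (hv : 4 * (d + 1) ≤ 2 ^ v) (hvi : v ≤ i₀) (hi : i₀ ≤ i) {D C₁ C₂ Δ : ℕ}
    (hsm : 2 * (Δ + (2 * D + C₁) * (d + 1) + C₁ + C₂ + 1) ≤ 2 ^ i₀) :
    Δ + (2 ^ (i - v) + 2 * D + C₁) + d * (2 ^ (i - v) + (2 ^ (i - v) + 2 * D + C₁)) + C₁ + C₂ < 2 ^ i ∧
    2 * D + 2 ^ (i - v) ≤ 2 ^ i ∧ (2 ^ (i - v) + 2 * D + C₁) + 1 + Δ ≤ 2 ^ i := by
  have h1 : 2 ^ i = 2 ^ v * 2 ^ (i - v) := by rw [← pow_add]; congr 1; omega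
  have h2 : 4 * (d + 1) * 2 ^ (i - v) ≤ 2 ^ i := by rw [h1]; exact Nat.mul_le_mul_right _ hv
  have h3 : 2 ^ i₀ ≤ 2 ^ i := Nat.pow_le_pow_right (by norm_num) hi
  have h4 : 0 < 2 ^ (i - v) := by positivity
  generalize 2 ^ (i - v) = X at *
  generalize 2 ^ i = Y at *
  generalize 2 ^ i₀ = Z at *
  refine ⟨?_, ?_, ?_⟩ <;> nlinarith

theorem ncode_bound {b cQ cK g H D γ v i N : ℕ} (hg : g ≤ b ^ (2 ^ γ)) (hi : v + 1 + γ ≤ i)
    (hN : 2 ^ (i - v) ≤ N) : ncode cQ cK g H (2 ^ (i - (v + 1 + γ)) + D) * b ^ (N - 2 ^ (i - v)) ≤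
      cQ * (H + 1) ^ (3 * cK) * b ^ (2 ^ γ * D) * b ^ (N - 2 ^ (i - (v + 1))) := by
  unfold ncode
  have h1 : g ^ (2 ^ (i - (v + 1 + γ)) + D) ≤ b ^ (2 ^ (i - (v + 1))) * b ^ (2 ^ γ * D) := by
    calc g ^ (2 ^ (i - (v + 1 + γ)) + D) ≤ (b ^ (2 ^ γ)) ^ (2 ^ (i - (v + 1 + γ)) + D) :=
          Nat.pow_le_pow_left hg _
      _ = b ^ (2 ^ γ * 2 ^ (i - (v + 1 + γ)) + 2 ^ γ * D) := by rw [← pow_mul, mul_add]
      _ = b ^ (2 ^ (i - (v + 1)) + 2 ^ γ * D) := by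
          rw [← pow_add]; congr 3; omega
      _ = _ := by rw [pow_add]
  have h2 : 2 ^ (i - v) = 2 ^ (i - (v + 1)) + 2 ^ (i - (v + 1)) := by
    rw [← two_mul, ← pow_succ']; congr 1; omega
  have h3 : b ^ (2 ^ (i - (v + 1))) * b ^ (N - 2 ^ (i - v)) = b ^ (N - 2 ^ (i - (v + 1))) := by
    rw [← pow_add]; congr 1; omega
  calc cQ * ((H + 1) ^ (3 * cK) * g ^ (2 ^ (i - (v + 1 + γ)) + D)) * b ^ (N - 2 ^ (i - v))
      ≤ cQ * ((H + 1) ^ (3 * cK) * (b ^ (2 ^ (i - (v + 1))) * b ^ (2 ^ γ * D))) *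
          b ^ (N - 2 ^ (i - v)) := by gcongr
    _ = cQ * (H + 1) ^ (3 * cK) * b ^ (2 ^ γ * D) *
          (b ^ (2 ^ (i - (v + 1))) * b ^ (N - 2 ^ (i - v))) := by ring
    _ = _ := by rw [h3]

theorem core [Fintype K] [Fintype Q] [∀ k, Fintype (Γ k)] (M : Sys K Γ Q b) {α E : ℝ} (hb : 2 ≤ b)
    (hα : α ≠ 0) {d C₁ C₂ : ℕ} (hL : Dio b α d C₂)
    (hC₁ : 2 * E ≤ (b : ℝ) ^ C₁) (hC₁' : 2 * E ≤ |α| * (b : ℝ) ^ C₁) {v γ : ℕ}
    (hv : 4 * (d + 1) ≤ 2 ^ v) (hγ : ∏ k, (Fintype.card (Γ k) + 1) ≤ b ^ (2 ^ γ))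
    {N i₀ L Δ Tmax : ℕ} (hN : 2 * 2 ^ (i₀ + L) ≤ N) (hi₀ : v + 1 + γ ≤ i₀)
    (hsm : 2 * (Δ + (2 * M.D + C₁) * (d + 1) + C₁ + C₂ + 1) ≤ 2 ^ i₀)
    (htime : 2 * 2 ^ (v + 1 + γ) * (Fintype.card K * M.P * Tmax) < L * 2 ^ (i₀ + L))
    (W : Finset (Fin N → Fin b))
    (hW : ∀ w ∈ W, M.Fine α E (2 * 2 ^ (i₀ + L)) Δ Tmax w) :
    W.card ≤ (1 + L * 2 ^ L * (1 + Fintype.card Q * (N + M.P * Tmax + 1) ^ (3 * Fintype.card K) *
      b ^ (2 ^ γ * M.D))) * b ^ (N - 2 ^ (i₀ - (v + 1))) := by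
  classical
  have hvi : v ≤ i₀ := by omega
  have hx0 : ∀ i, i₀ ≤ i → 2 ^ (i₀ - (v + 1)) ≤ 2 ^ (i - (v + 1)) :=
    fun i hi => Nat.pow_le_pow_right (by norm_num) (by omega)
  have hx1 : ∀ i, i₀ ≤ i → 2 ^ (i₀ - (v + 1)) ≤ 2 ^ (i - v) :=
    fun i hi => Nat.pow_le_pow_right (by norm_num) (by omega)
  have hii : ∀ i < L, 2 ^ (i₀ + i) ≤ 2 ^ (i₀ + L) :=
    fun i hi => Nat.pow_le_pow_right (by norm_num) (by omega)
  have h00 : 2 ^ i₀ ≤ 2 ^ (i₀ + L) := Nat.pow_le_pow_right (by norm_num) (by omega)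
  obtain ⟨a1, a2, a3⟩ := core_arith (i := i₀) hv hvi le_rfl hsm
  set P' := 2 ^ (i₀ + L) with hP'
  -- the three kinds of words
  let A : Finset (Fin N → Fin b) := W.filter (fun w => ∃ T, M.Mono w T ∧
    N ≤ M.h w M.inp T + (P' + M.D) ∧ M.App α E w T (2 * P'))
  let B : ℕ → ℕ → Finset (Fin N → Fin b) := fun i l => W.filter (fun w =>
    (l + 1) * 2 ^ (i₀ + i + 1) ≤ P' ∧ ∃ T ≤ Tmax, M.G α E P' Δ w T ∧
      l * 2 ^ (i₀ + i + 1) + 2 ^ (i₀ + i) + (2 ^ (i₀ + i - v) + 2 * M.D + C₁) <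
        M.h w M.out (M.τ w (l * 2 ^ (i₀ + i + 1) + 2 ^ (i₀ + i))))
  let C : ℕ → ℕ → Finset (Fin N → Fin b) := fun i l => W.filter (fun w =>
    ((l + 1) * 2 ^ (i₀ + i + 1) ≤ P' ∧ ∃ T ≤ Tmax, M.G α E P' Δ w T) ∧
      M.h w M.out (M.τ w (l * 2 ^ (i₀ + i + 1) + 2 ^ (i₀ + i))) ≤
        l * 2 ^ (i₀ + i + 1) + 2 ^ (i₀ + i) + (2 ^ (i₀ + i - v) + 2 * M.D + C₁) ∧
      ∀ k, ovl (M.h w k) (M.τ w (l * 2 ^ (i₀ + i + 1)))
        (M.τ w (l * 2 ^ (i₀ + i + 1) + 2 ^ (i₀ + i)))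
        (M.τ w (l * 2 ^ (i₀ + i + 1) + 2 * 2 ^ (i₀ + i))) ≤ 2 ^ (i₀ + i - (v + 1 + γ)))
  have hA : A.card ≤ b ^ (N - 2 ^ (i₀ - (v + 1))) := by
    have h1 := early_card M hb hα hC₁' (j := P') (x := 2 ^ (i₀ - v)) (n := 2 * P') A (by
      intro w hw
      exact (Finset.mem_filter.1 hw).2) (by omega) (by omega)
    exact h1.trans (Nat.pow_le_pow_right (by omega) (Nat.sub_le_sub_left (hx1 i₀ le_rfl) _))
  have hB : ∀ i < L, ∀ l, (B i l).card ≤ b ^ (N - 2 ^ (i₀ - (v + 1))) := by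
    intro i hi l
    obtain ⟨b1, b2, b3⟩ := core_arith (i := i₀ + i) hv hvi (by omega) hsm
    by_cases hl : (l + 1) * 2 ^ (i₀ + i + 1) ≤ P'
    · have e1 : 2 ^ (i₀ + i + 1) = 2 * 2 ^ (i₀ + i) := pow_succ' 2 (i₀ + i)
      have e2 : (l + 1) * 2 ^ (i₀ + i + 1) = l * 2 ^ (i₀ + i + 1) + 2 * 2 ^ (i₀ + i) := by
        rw [add_mul, one_mul, e1]
      rw [e2] at hl
      have h1 := early_card M hb hα hC₁' (j := l * 2 ^ (i₀ + i + 1) + 2 ^ (i₀ + i))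
        (x := 2 ^ (i₀ + i - v))
        (n := l * 2 ^ (i₀ + i + 1) + 2 ^ (i₀ + i) + (2 ^ (i₀ + i - v) + 2 * M.D + C₁) + 1) (B i l) (by
        intro w hw
        obtain ⟨-, T, hT, hG, hlt⟩ := (Finset.mem_filter.1 hw).2
        have hpop := hG.pop
        have s2 : M.h w M.inp (M.τ w (l * 2 ^ (i₀ + i + 1) + 2 ^ (i₀ + i))) +
          (l * 2 ^ (i₀ + i + 1) + 2 ^ (i₀ + i)) ≤ N := M.τ_spec (t := T) (by omega)
        have s3 : M.τ w (l * 2 ^ (i₀ + i + 1) + 2 * 2 ^ (i₀ + i)) ≤ T := M.τ_le (by omega)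
        have s4 : M.τ w (l * 2 ^ (i₀ + i + 1) + 2 ^ (i₀ + i)) ≤
          M.τ w (l * 2 ^ (i₀ + i + 1) + 2 * 2 ^ (i₀ + i)) := M.τ_mono (t := T) (by omega) (by omega)
        refine ⟨M.τ w (l * 2 ^ (i₀ + i + 1) + 2 ^ (i₀ + i)), hG.mono.le (s4.trans s3), ?_, ?_⟩
        · have := M.τ_upper (w := w) (l * 2 ^ (i₀ + i + 1) + 2 ^ (i₀ + i))
          omega
        · exact (hG.app_τ (j := l * 2 ^ (i₀ + i + 1) + 2 * 2 ^ (i₀ + i)) (by omega)
            (by omega)).earlier hG.mono s4 s3 hlt) (by omega) (by omega)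
      exact h1.trans (Nat.pow_le_pow_right (by omega) (Nat.sub_le_sub_left (hx1 (i₀ + i) (by omega)) _))
    · have h1 : (B i l) = ∅ := by
        apply Finset.filter_eq_empty_iff.2
        intro w _ h
        exact hl h.1
      rw [h1]; simp
  have hC : ∀ i < L, ∀ l, (C i l).card ≤ Fintype.card Q *
      (N + M.P * Tmax + 1) ^ (3 * Fintype.card K) * b ^ (2 ^ γ * M.D) *
        b ^ (N - 2 ^ (i₀ - (v + 1))) := by
    intro i hi l
    obtain ⟨b1, b2, b3⟩ := core_arith (i := i₀ + i) hv hvi (by omega) hsm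
    have hiL := hii i hi
    by_cases hl : (l + 1) * 2 ^ (i₀ + i + 1) ≤ P'
    · have e1 : 2 ^ (i₀ + i + 1) = 2 * 2 ^ (i₀ + i) := pow_succ' 2 (i₀ + i)
      have e2 : (l + 1) * 2 ^ (i₀ + i + 1) = l * 2 ^ (i₀ + i + 1) + 2 * 2 ^ (i₀ + i) := by
        rw [add_mul, one_mul, e1]
      rw [e2] at hl
      have h1 := pair_card M hb hL hC₁ (P' := P') (Δ := Δ) (a := l * 2 ^ (i₀ + i + 1))
        (m := 2 ^ (i₀ + i)) (x := 2 ^ (i₀ + i - v)) (y := 2 ^ (i₀ + i - v) + 2 * M.D + C₁)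
        (W₀ := 2 ^ (i₀ + i - (v + 1 + γ))) (Tmax := Tmax) (C i l) (by
          intro w hw
          exact (Finset.mem_filter.1 hw).2.1.2) (by omega) (by omega) (by omega) (by
          intro w hw
          exact (Finset.mem_filter.1 hw).2.2.1) b1 (by
          intro w hw
          exact (Finset.mem_filter.1 hw).2.2.2)
      refine h1.trans ((ncode_bound hγ (by omega) (by omega)).trans ?_)
      exact Nat.mul_le_mul_left _ (Nat.pow_le_pow_right (by omega)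
        (Nat.sub_le_sub_left (hx0 (i₀ + i) (by omega)) _))
    · have h1 : (C i l) = ∅ := by
        apply Finset.filter_eq_empty_iff.2
        intro w _ h
        exact hl h.1.1
      rw [h1]; simp
  have hcover : W ⊆ A ∪ (Finset.range L).biUnion (fun i => (Finset.range (2 ^ L)).biUnion
      (fun l => B i l ∪ C i l)) := by
    intro w hw
    by_contra hcon
    rw [Finset.mem_union, not_or] at hcon
    obtain ⟨hnA, hn⟩ := hcon
    obtain ⟨T, hT, hM, happ⟩ := (hW w hw).ex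
    obtain ⟨t, ht, -, hbig⟩ := happ (2 * P') le_rfl
    have hnp : ¬ N ≤ M.h w M.inp t + (P' + M.D) := by
      intro h
      exact hnA (Finset.mem_filter.2 ⟨hw, t, hM.le ht, h, hbig⟩)
    have hanti := hM.anti ht le_rfl
    have hG : M.G α E P' Δ w T := ⟨hM, by omega, fun n hn => happ n (by omega)⟩
    have hpop := hG.pop
    have hτT : M.τ w P' ≤ T := M.τ_le hpop
    have htree := tree (h := M.h w) (P := M.P) (fun k r => M.h_succ w k r)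
      (τ := fun j => M.τ w (min j P')) (i₀ := i₀) (L := L) (r := 2 ^ (v + 1 + γ)) (by
        intro j j' hj
        exact M.τ_mono (t := T) (min_le_min_right _ hj) (by
          have := min_le_right j' P'
          omega)) (by
        intro i hi1 hi2 l hl
        obtain ⟨i', rfl⟩ : ∃ i', i = i₀ + i' := ⟨i - i₀, by omega⟩
        have hi' : i' < L := by omega
        have e1 : 2 ^ (i₀ + i' + 1) = 2 * 2 ^ (i₀ + i') := pow_succ' 2 (i₀ + i')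
        have e2 : (l + 1) * 2 ^ (i₀ + i' + 1) = l * 2 ^ (i₀ + i' + 1) + 2 * 2 ^ (i₀ + i') := by
          rw [add_mul, one_mul, e1]
        have hlL : l < 2 ^ L := by
          by_contra h
          push Not at h
          have h1 : (2 ^ L + 1) * 2 ^ i₀ ≤ (l + 1) * 2 ^ (i₀ + i' + 1) :=
            Nat.mul_le_mul (by omega) (Nat.pow_le_pow_right (by norm_num) (by omega))
          have h2 : 2 ^ (i₀ + L) = 2 ^ L * 2 ^ i₀ := by rw [pow_add]; ring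
          have h3 : 0 < 2 ^ i₀ := by positivity
          rw [add_mul, one_mul, ← h2] at h1
          omega
        have hl' : l * 2 ^ (i₀ + i' + 1) + 2 * 2 ^ (i₀ + i') ≤ P' := by rw [← e2]; exact hl
        have hex : ∃ k, 2 ^ (i₀ + i' - (v + 1 + γ)) < ovl (M.h w k) (M.τ w (l * 2 ^ (i₀ + i' + 1)))
            (M.τ w (l * 2 ^ (i₀ + i' + 1) + 2 ^ (i₀ + i')))
            (M.τ w (l * 2 ^ (i₀ + i' + 1) + 2 * 2 ^ (i₀ + i'))) := by
          by_contra hno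
          push Not at hno
          apply hn
          rw [Finset.mem_biUnion]
          refine ⟨i', Finset.mem_range.2 hi', ?_⟩
          rw [Finset.mem_biUnion]
          refine ⟨l, Finset.mem_range.2 hlL, ?_⟩
          rw [Finset.mem_union]
          rcases Nat.lt_or_ge (l * 2 ^ (i₀ + i' + 1) + 2 ^ (i₀ + i') +
            (2 ^ (i₀ + i' - v) + 2 * M.D + C₁))
            (M.h w M.out (M.τ w (l * 2 ^ (i₀ + i' + 1) + 2 ^ (i₀ + i')))) with h | h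
          · exact Or.inl (Finset.mem_filter.2 ⟨hw, hl, T, hT, hG, h⟩)
          · exact Or.inr (Finset.mem_filter.2 ⟨hw, ⟨hl, T, hT, hG⟩, h, hno⟩)
        obtain ⟨k, hk⟩ := hex
        rw [min_eq_left (show l * 2 ^ (i₀ + i' + 1) ≤ P' by omega),
          min_eq_left (show l * 2 ^ (i₀ + i' + 1) + 2 ^ (i₀ + i') ≤ P' by omega),
          show l * 2 ^ (i₀ + i' + 1) + 2 ^ (i₀ + i' + 1) =
            l * 2 ^ (i₀ + i' + 1) + 2 * 2 ^ (i₀ + i') by rw [← e1],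
          min_eq_left hl']
        have h1 : 2 ^ (i₀ + i') = 2 ^ (v + 1 + γ) * 2 ^ (i₀ + i' - (v + 1 + γ)) := by
          rw [← pow_add]; congr 1; omega
        calc 2 ^ (i₀ + i') = 2 ^ (v + 1 + γ) * 2 ^ (i₀ + i' - (v + 1 + γ)) := h1
          _ ≤ 2 ^ (v + 1 + γ) * ovl (M.h w k) (M.τ w (l * 2 ^ (i₀ + i' + 1)))
            (M.τ w (l * 2 ^ (i₀ + i' + 1) + 2 ^ (i₀ + i')))
            (M.τ w (l * 2 ^ (i₀ + i' + 1) + 2 * 2 ^ (i₀ + i'))) := Nat.mul_le_mul_left _ hk.le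
          _ ≤ _ := Nat.mul_le_mul_left _ (Finset.single_le_sum (f := fun k =>
              ovl (M.h w k) (M.τ w (l * 2 ^ (i₀ + i' + 1)))
            (M.τ w (l * 2 ^ (i₀ + i' + 1) + 2 ^ (i₀ + i')))
            (M.τ w (l * 2 ^ (i₀ + i' + 1) + 2 * 2 ^ (i₀ + i')))) (fun _ _ => Nat.zero_le _)
              (Finset.mem_univ k)))
    rw [← hP', min_self] at htree
    have h1 : 2 * 2 ^ (v + 1 + γ) * (Fintype.card K * M.P * M.τ w P') ≤
        2 * 2 ^ (v + 1 + γ) * (Fintype.card K * M.P * Tmax) :=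
      Nat.mul_le_mul_left _ (Nat.mul_le_mul_left _ (hτT.trans hT))
    omega
  calc W.card ≤ _ := Finset.card_le_card hcover
    _ ≤ A.card + ∑ i ∈ Finset.range L, ∑ l ∈ Finset.range (2 ^ L), ((B i l).card + (C i l).card) := by
        refine (Finset.card_union_le _ _).trans (Nat.add_le_add_left ?_ _)
        refine Finset.card_biUnion_le.trans (Finset.sum_le_sum fun i _ => ?_)
        refine Finset.card_biUnion_le.trans (Finset.sum_le_sum fun l _ => ?_)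
        exact Finset.card_union_le _ _
    _ ≤ b ^ (N - 2 ^ (i₀ - (v + 1))) + ∑ i ∈ Finset.range L, ∑ l ∈ Finset.range (2 ^ L),
          (b ^ (N - 2 ^ (i₀ - (v + 1))) + Fintype.card Q *
          (N + M.P * Tmax + 1) ^ (3 * Fintype.card K) * b ^ (2 ^ γ * M.D) *
            b ^ (N - 2 ^ (i₀ - (v + 1)))) := by
        refine Nat.add_le_add hA (Finset.sum_le_sum fun i hi => Finset.sum_le_sum fun l _ => ?_)
        exact Nat.add_le_add (hB i (Finset.mem_range.1 hi) l) (hC i (Finset.mem_range.1 hi) l)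
    _ = _ := by
        rw [Finset.sum_const, Finset.sum_const, Finset.card_range, Finset.card_range, smul_eq_mul,
          smul_eq_mul]
        ring

end Pool.Agent.H77.OL
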