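import Pool.Agent.H77.OL.Engine

/-!
The engine: one constant `A` for a machine.
-/

namespace Pool.Agent.H77.OL

open Pool.Agent.H77.RT Turing

theorem pow_le_of_self {n m : ℕ} (h : n ≤ m) : n ≤ 2 ^ m :=
  h.trans (Nat.lt_two_pow_self).le

/-- the polynomial bound -/
theorem poly_bound {N L i₀ cQ cK P Tmax Z s : ℕ} (hN : 4 * 2 ^ (i₀ + L) ≤ N)
    (hT : Tmax < L * 2 ^ (i₀ + L)) (hs : cQ * Z ≤ 2 ^ s) :
    1 + L * 2 ^ L * (1 + cQ * (N + P * Tmax + 1) ^ (3 * cK) * Z) ≤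
      N ^ (s + (P + 2 + 2) * (3 * cK) + 1 + 2 + 1) := by
  have h0 : 0 < 2 ^ (i₀ + L) := by positivity
  have hN2 : 2 ≤ N := by omega
  have hL : 2 ^ L ≤ N := by
    have : 2 ^ L ≤ 2 ^ (i₀ + L) := Nat.pow_le_pow_right (by norm_num) (by omega)
    omega
  have hL' : L ≤ N := (Nat.lt_two_pow_self).le.trans hL
  have hJN : 2 ^ (i₀ + L) ≤ N := by omega
  have hTN : Tmax ≤ N * N := hT.le.trans (Nat.mul_le_mul hL' hJN)
  have hP : P + 2 ≤ N ^ (P + 2) :=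
    (Nat.lt_two_pow_self).le.trans (Nat.pow_le_pow_left hN2 _)
  have h1 : N + P * Tmax + 1 ≤ N ^ (P + 2 + 2) := by
    calc N + P * Tmax + 1 ≤ N + P * (N * N) + 1 := by
          have := Nat.mul_le_mul_left P hTN
          omega
      _ ≤ (P + 2) * (N * N) := by nlinarith
      _ ≤ N ^ (P + 2) * (N * N) := Nat.mul_le_mul_right _ hP
      _ = N ^ (P + 2 + 2) := by rw [pow_add N (P + 2) 2]; ring
  have h2 : cQ * (N + P * Tmax + 1) ^ (3 * cK) * Z ≤ N ^ (s + (P + 2 + 2) * (3 * cK)) := by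
    calc cQ * (N + P * Tmax + 1) ^ (3 * cK) * Z = cQ * Z * (N + P * Tmax + 1) ^ (3 * cK) := by ring
      _ ≤ N ^ s * (N ^ (P + 2 + 2)) ^ (3 * cK) := by
          apply Nat.mul_le_mul (hs.trans (Nat.pow_le_pow_left hN2 _)) (Nat.pow_le_pow_left h1 _)
      _ = _ := by rw [← pow_mul, ← pow_add]
  have hpos : ∀ m, 1 ≤ N ^ m := fun m => Nat.one_le_pow _ _ (by omega)
  have h3 : 1 + cQ * (N + P * Tmax + 1) ^ (3 * cK) * Z ≤ N ^ (s + (P + 2 + 2) * (3 * cK) + 1) := by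
    rw [pow_succ]
    have := hpos (s + (P + 2 + 2) * (3 * cK))
    nlinarith
  have h4 : L * 2 ^ L * (1 + cQ * (N + P * Tmax + 1) ^ (3 * cK) * Z) ≤
      N ^ (s + (P + 2 + 2) * (3 * cK) + 1 + 2) := by
    calc _ ≤ N * N * N ^ (s + (P + 2 + 2) * (3 * cK) + 1) :=
          Nat.mul_le_mul (Nat.mul_le_mul hL' hL) h3
      _ = _ := by rw [pow_add N (s + (P + 2 + 2) * (3 * cK) + 1) 2]; ring
  rw [pow_succ]
  have := hpos (s + (P + 2 + 2) * (3 * cK) + 1 + 2)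
  nlinarith

theorem exists_big (a b c d : ℕ) : ∃ A : ℕ, a ≤ A ∧ b ≤ A ∧ c ≤ A ∧ d ≤ A :=
  ⟨a + b + c + d, by omega, by omega, by omega, by omega⟩

theorem exists_C1 {b : ℕ} (hb : 2 ≤ b) {α : ℝ} (hα : α ≠ 0) (E : ℝ) :
    ∃ C₁ : ℕ, 2 * E ≤ (b : ℝ) ^ C₁ ∧ 2 * E ≤ |α| * (b : ℝ) ^ C₁ := by
  have hb1 : (1 : ℝ) < b := by exact_mod_cast (by omega : 1 < b)
  obtain ⟨n, hn⟩ := pow_unbounded_of_one_lt (max (2 * E) (2 * E / |α|)) hb1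
  refine ⟨n, (le_max_left _ _).trans hn.le, ?_⟩
  have h1 := (le_max_right (2 * E) (2 * E / |α|)).trans hn.le
  have h2 : 0 < |α| := abs_pos.2 hα
  rw [div_le_iff₀ h2] at h1
  linarith

theorem engine {K : Type} [Fintype K] [DecidableEq K] {Γ : K → Type} [∀ k, Fintype (Γ k)] {Λ : Type}
    [Fintype Λ] {σ : Type} [Fintype σ] {b : ℕ} (hb : 2 ≤ b) {α : ℝ} (hα : ¬ Liouville α)
    (hirr : Irrational α) (M : Λ → TM2.Stmt Γ Λ σ) (l₀ : Λ) (v₀ : σ) {inp out : K}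
    (ne : out ≠ inp) (rd : Fin b → Γ inp) (wr : Γ out → ℤ) (E : ℝ) :
    ∃ A : ℕ, 0 < A ∧ ∀ (T D : ℕ → ℕ) (N i₀ L : ℕ),
      (∀ n ≤ 2 * 2 ^ (i₀ + L), A * T n < L * 2 ^ (i₀ + L)) →
      (∀ n ≤ 2 * 2 ^ (i₀ + L), A * (D n + 2) ≤ 2 ^ i₀) →
      4 * 2 ^ (i₀ + L) ≤ N → ∀ W : Finset (Fin N → Fin b),
      (∀ w ∈ W, RawMult M l₀ v₀ inp out rd wr α E T D (List.ofFn w)) →
      W.card * b ^ (2 ^ i₀ / A) ≤ N ^ A * b ^ N := by
  classical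
  obtain ⟨d, hL⟩ := dio_of_not_liouville hb hα hirr
  have hα0 : α ≠ 0 := hirr.ne_zero
  obtain ⟨C₁, hC₁, hC₁'⟩ := exists_C1 hb hα0 E
  set S := toSys M l₀ v₀ inp out ne rd wr with hS
  obtain ⟨v, hv⟩ : ∃ v, v = 4 * (d + 1) := ⟨_, rfl⟩
  have hv' : 4 * (d + 1) ≤ 2 ^ v := pow_le_of_self hv.ge
  obtain ⟨γ, hγ⟩ : ∃ γ, γ = ∏ k, (Fintype.card (Γ k) + 1) := ⟨_, rfl⟩
  have hγ' : ∏ k, (Fintype.card (Γ k) + 1) ≤ b ^ (2 ^ γ) := by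
    calc ∏ k, (Fintype.card (Γ k) + 1) ≤ 2 ^ γ := pow_le_of_self hγ.ge
      _ ≤ 2 ^ (2 ^ γ) := Nat.pow_le_pow_right (by norm_num) (pow_le_of_self le_rfl)
      _ ≤ b ^ (2 ^ γ) := Nat.pow_le_pow_left hb _
  obtain ⟨X, hX⟩ : ∃ X, X = (2 * S.D + C₁) * (d + 1) + C₁ + d := ⟨_, rfl⟩
  obtain ⟨s, hs⟩ : ∃ s, s = Fintype.card (Option Λ × σ) * b ^ (2 ^ γ * S.D) := ⟨_, rfl⟩
  have hs' : Fintype.card (Option Λ × σ) * b ^ (2 ^ γ * S.D) ≤ 2 ^ s := pow_le_of_self hs.ge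
  obtain ⟨Y, hY⟩ : ∃ Y, Y = s + (S.P + 2 + 2) * (3 * Fintype.card K) + 1 + 2 + 1 := ⟨_, rfl⟩
  obtain ⟨U, hU⟩ : ∃ U, U = 2 * 2 ^ (v + 1 + γ) * (Fintype.card K * S.P) := ⟨_, rfl⟩
  obtain ⟨A, hAU, hAv, hAX, hAY⟩ := exists_big U (2 ^ (v + 1 + γ)) (2 * X + 4) Y
  have hApos : 0 < A := lt_of_lt_of_le (by positivity) hAv
  refine ⟨A, hApos, ?_⟩
  intro T D N i₀ L hT hD hN W hW
  obtain ⟨Tmax, hTmax⟩ : ∃ Tmax, Tmax = (Finset.range (2 * 2 ^ (i₀ + L) + 1)).sup T := ⟨_, rfl⟩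
  obtain ⟨Dmax, hDmax⟩ : ∃ Dmax, Dmax = (Finset.range (2 * 2 ^ (i₀ + L) + 1)).sup D := ⟨_, rfl⟩
  have hTle : ∀ n ≤ 2 * 2 ^ (i₀ + L), T n ≤ Tmax := by
    intro n hn
    rw [hTmax]
    exact Finset.le_sup (f := T) (Finset.mem_range.2 (by omega))
  have hDle : ∀ n ≤ 2 * 2 ^ (i₀ + L), D n < Dmax + 1 := by
    intro n hn
    rw [hDmax, Nat.lt_succ_iff]
    exact Finset.le_sup (f := D) (Finset.mem_range.2 (by omega))
  have hTmax' : A * Tmax < L * 2 ^ (i₀ + L) := by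
    obtain ⟨n, hn, hn'⟩ := Finset.exists_mem_eq_sup (Finset.range (2 * 2 ^ (i₀ + L) + 1))
      ⟨0, by simp⟩ T
    rw [hTmax, hn']
    exact hT n (by simpa [Nat.lt_succ_iff] using hn)
  have hDmax' : A * (Dmax + 2) ≤ 2 ^ i₀ := by
    obtain ⟨n, hn, hn'⟩ := Finset.exists_mem_eq_sup (Finset.range (2 * 2 ^ (i₀ + L) + 1))
      ⟨0, by simp⟩ D
    rw [hDmax, hn']
    exact hD n (by simpa [Nat.lt_succ_iff] using hn)
  have hAi : A ≤ 2 ^ i₀ := le_trans (Nat.le_mul_of_pos_right _ (Nat.succ_pos _)) hDmax'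
  have hi₀ : v + 1 + γ ≤ i₀ := by
    have h1 : 2 ^ (v + 1 + γ) ≤ 2 ^ i₀ := hAv.trans hAi
    exact (Nat.pow_le_pow_iff_right (by norm_num)).1 h1
  have hJ : 2 ^ i₀ ≤ 2 ^ (i₀ + L) := Nat.pow_le_pow_right (by norm_num) (by omega)
  have hDA : Dmax + 1 ≤ 2 ^ i₀ :=
    le_trans (le_trans (Nat.le_succ _) (Nat.le_mul_of_pos_left _ hApos)) hDmax'
  have hcore := core S hb hα0 hL hC₁ hC₁' (v := v) (γ := γ) hv' hγ' (N := N) (i₀ := i₀) (L := L)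
    (Δ := Dmax + 1) (Tmax := Tmax) (by omega) hi₀ (by
      rw [show (Dmax + 1 + (2 * S.D + C₁) * (d + 1) + C₁ + d + 1) = Dmax + 2 + X by rw [hX]; ring]
      have h1 : (2 * X + 4) * (Dmax + 2) ≤ A * (Dmax + 2) := Nat.mul_le_mul_right _ hAX
      clear hU hY hX hs
      nlinarith) (by
      have h1 : U * Tmax ≤ A * Tmax := Nat.mul_le_mul_right _ hAU
      rw [hU] at h1
      calc _ = 2 * 2 ^ (v + 1 + γ) * (Fintype.card K * S.P) * Tmax := by ring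
        _ ≤ A * Tmax := h1
        _ < _ := hTmax') W (by
      intro w hw
      exact fine_of_mult (by omega) ne (hW w hw) hTle hDle (by omega))
  have hTT : Tmax < L * 2 ^ (i₀ + L) := lt_of_le_of_lt (Nat.le_mul_of_pos_left _ hApos) hTmax'
  have hpoly := poly_bound (P := S.P) (cK := Fintype.card K) hN hTT hs'
  have hN1 : 1 ≤ N := by
    have : 0 < 2 ^ (i₀ + L) := by positivity
    omega
  have h1 : W.card ≤ N ^ A * b ^ (N - 2 ^ (i₀ - (v + 1))) :=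
    hcore.trans (Nat.mul_le_mul_right _ (hpoly.trans (Nat.pow_le_pow_right hN1 (hY.symm.le.trans hAY))))
  have h2 : 2 ^ i₀ / A ≤ 2 ^ (i₀ - (v + 1)) := by
    apply Nat.div_le_of_le_mul
    have e1 : 2 ^ i₀ = 2 ^ (v + 1) * 2 ^ (i₀ - (v + 1)) := by rw [← pow_add]; congr 1; omega
    have e2 : 2 ^ (v + 1) ≤ A :=
      le_trans (Nat.pow_le_pow_right (by norm_num) (Nat.le_add_right _ _)) hAv
    calc 2 ^ i₀ = 2 ^ (v + 1) * 2 ^ (i₀ - (v + 1)) := e1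
      _ ≤ A * 2 ^ (i₀ - (v + 1)) := Nat.mul_le_mul_right _ e2
  have h3 : 2 ^ (i₀ - (v + 1)) ≤ N := by
    have : 2 ^ (i₀ - (v + 1)) ≤ 2 ^ i₀ := Nat.pow_le_pow_right (by norm_num) (by omega)
    omega
  calc W.card * b ^ (2 ^ i₀ / A) ≤ N ^ A * b ^ (N - 2 ^ (i₀ - (v + 1))) * b ^ (2 ^ (i₀ - (v + 1))) :=
        Nat.mul_le_mul h1 (Nat.pow_le_pow_right (by omega) h2)
    _ = N ^ A * b ^ N := by
        rw [mul_assoc, ← pow_add, Nat.sub_add_cancel h3]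

end Pool.Agent.H77.OL
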