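import Pool.Agent.H77.OL.Engine2

/-!
Asymptotics.
-/

namespace Pool.Agent.H77.OL

open Pool.Agent.H77.RT Turing Filter Asymptotics

/-- the exponent belonging to a length -/
def Jn (N : ℕ) : ℕ := Nat.log 2 N - 2

theorem Jn_spec {N : ℕ} (hN : 4 ≤ N) : 4 * 2 ^ Jn N ≤ N ∧ N < 8 * 2 ^ Jn N := by
  have h1 : 2 ≤ Nat.log 2 N := by
    rw [show (2 : ℕ) = Nat.log 2 (2 ^ 2) by rw [Nat.log_pow (by norm_num)]]
    exact Nat.log_mono_right (by simpa using hN)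
  have h2 := Nat.pow_log_le_self 2 (show N ≠ 0 by omega)
  have h3 := Nat.lt_pow_succ_log_self (b := 2) (by norm_num) N
  obtain ⟨j, hj⟩ : ∃ j, Nat.log 2 N = j + 2 := ⟨Nat.log 2 N - 2, by omega⟩
  have h4 : Jn N = j := by unfold Jn; omega
  rw [h4]
  rw [hj] at h2 h3
  have e1 : 2 ^ (j + 2) = 4 * 2 ^ j := by rw [pow_add]; ring
  have e2 : 2 ^ (j + 2).succ = 8 * 2 ^ j := by rw [Nat.succ_eq_add_one, pow_succ, pow_add]; ring
  omega

theorem tendsto_Jn : Tendsto Jn atTop atTop := by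
  rw [tendsto_atTop_atTop]
  intro M
  refine ⟨2 ^ (M + 2), fun N hN => ?_⟩
  have h1 : M + 2 ≤ Nat.log 2 N := by
    calc M + 2 = Nat.log 2 (2 ^ (M + 2)) := (Nat.log_pow (by norm_num) _).symm
      _ ≤ Nat.log 2 N := Nat.log_mono_right hN
  unfold Jn; omega

theorem final_ineq {b : ℕ} (hb : 2 ≤ b) {A J i₀ N : ℕ} (hA : 0 < A) {X : ℝ} (hN : N < 8 * 2 ^ J)
    (hX : (A : ℝ) * (J + 3) + X + 1 ≤ (2 : ℝ) ^ i₀ / A) :
    (N : ℝ) ^ A * (b : ℝ) ^ N < (b : ℝ) ^ ((N : ℝ) - X) * (b : ℝ) ^ (2 ^ i₀ / A) := by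
  have hb1 : (1 : ℝ) < b := by exact_mod_cast (by omega : 1 < b)
  have hb0 : (0 : ℝ) < b := by linarith
  have hb2 : (2 : ℝ) ≤ b := by exact_mod_cast hb
  have h1 : (N : ℝ) ^ A ≤ (b : ℝ) ^ (A * (J + 3)) := by
    have e1 : (N : ℝ) ≤ 2 ^ (J + 3) := by
      have : (N : ℝ) < 8 * 2 ^ J := by exact_mod_cast hN
      rw [pow_add]; linarith
    calc (N : ℝ) ^ A ≤ ((2 : ℝ) ^ (J + 3)) ^ A := pow_le_pow_left₀ (by positivity) e1 _
      _ = 2 ^ (A * (J + 3)) := by rw [← pow_mul]; congr 1; ring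
      _ ≤ _ := pow_le_pow_left₀ (by norm_num) hb2 _
  have h2 : (2 : ℝ) ^ i₀ / A < (2 ^ i₀ / A : ℕ) + 1 := by
    have e1 : (A : ℝ) * ((2 ^ i₀ / A : ℕ) + 1) > 2 ^ i₀ := by
      have := Nat.lt_mul_div_succ (2 ^ i₀) hA
      exact_mod_cast this
    rw [div_lt_iff₀ (by exact_mod_cast hA)]
    linarith
  calc (N : ℝ) ^ A * (b : ℝ) ^ N ≤ (b : ℝ) ^ (A * (J + 3)) * (b : ℝ) ^ N :=
        mul_le_mul_of_nonneg_right h1 (by positivity)
    _ = (b : ℝ) ^ ((A : ℝ) * (J + 3) + N) := by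
        rw [← pow_add, ← Real.rpow_natCast]; push_cast; rfl
    _ < (b : ℝ) ^ (((N : ℝ) - X) + (2 ^ i₀ / A : ℕ)) := by
        apply Real.rpow_lt_rpow_of_exponent_lt hb1
        linarith
    _ = _ := by rw [Real.rpow_add hb0, Real.rpow_natCast]

theorem card_lt {b : ℕ} (hb : 2 ≤ b) {A J i₀ N c : ℕ} (hA : 0 < A) {X : ℝ} (hN : N < 8 * 2 ^ J)
    (hX : (A : ℝ) * (J + 3) + X + 1 ≤ (2 : ℝ) ^ i₀ / A)
    (hc : c * b ^ (2 ^ i₀ / A) ≤ N ^ A * b ^ N) : (c : ℝ) < (b : ℝ) ^ ((N : ℝ) - X) := by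
  have h1 := final_ineq hb hA hN hX
  have h2 : (c : ℝ) * (b : ℝ) ^ (2 ^ i₀ / A) ≤ (N : ℝ) ^ A * (b : ℝ) ^ N := by exact_mod_cast hc
  have hb0 : (0 : ℝ) < (b : ℝ) ^ (2 ^ i₀ / A) := by positivity
  exact lt_of_mul_lt_mul_right (h2.trans_lt h1) hb0.le

theorem two_rpow_le {θ ρ : ℝ} (hθ : 0 ≤ θ) (hρ : 1 ≤ ρ) : (2 : ℝ) ^ (θ * Real.log ρ) ≤ ρ ^ θ := by
  have h0 : 0 < ρ := by linarith
  have hlog : 0 ≤ Real.log ρ := Real.log_nonneg hρ
  rw [Real.rpow_def_of_pos (by norm_num), Real.rpow_def_of_pos h0]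
  apply Real.exp_le_exp.2
  have h2 : Real.log 2 ≤ 1 := by linarith [Real.log_two_lt_d9]
  have h3 : 0 ≤ θ * Real.log ρ := mul_nonneg hθ hlog
  nlinarith

/-- the ratio of the length and the lookahead tends to infinity -/
theorem tendsto_ratio {D : ℕ → ℕ} (hD : (fun n => (D n : ℝ)) =o[atTop] (fun n => (n : ℝ))) :
    Tendsto (fun n : ℕ => (n : ℝ) / ((D n : ℝ) + 1)) atTop atTop := by
  rw [tendsto_atTop]
  intro K
  have hK : 0 < max K 1 := lt_of_lt_of_le one_pos (le_max_right _ _)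
  have h1 : 0 < 1 / (2 * max K 1) := by positivity
  filter_upwards [hD.bound h1, tendsto_natCast_atTop_atTop.eventually_ge_atTop (2 * max K 1)]
    with n hn hn2
  rw [Real.norm_of_nonneg (by positivity), Real.norm_of_nonneg (by positivity)] at hn
  refine (le_max_left K 1).trans ?_
  rw [le_div_iff₀ (by positivity)]
  have h3 : max K 1 * (D n : ℝ) ≤ n / 2 := by
    calc max K 1 * (D n : ℝ) ≤ max K 1 * (1 / (2 * max K 1) * n) :=
          mul_le_mul_of_nonneg_left hn hK.le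
      _ = n / 2 := by field_simp
  linarith

/-- the parameters for a time `o(n log (n / (D n + 1)))` -/
theorem asy {A : ℕ} (hA : 0 < A) {T D : ℕ → ℕ} {κ : ℝ} (h0 : 0 < κ) (h1 : κ < 1)
    (hD : (fun n => (D n : ℝ)) =o[atTop] (fun n => (n : ℝ)))
    (hT : (fun n => (T n : ℝ)) =o[atTop] fun n => (n : ℝ) * Real.log ((n : ℝ) / ((D n : ℝ) + 1))) :
    ∀ᶠ N : ℕ in atTop, ∃ i₀ L : ℕ, Jn N = i₀ + L ∧ A * T N < L * 2 ^ (i₀ + L) ∧
      A * (D N + 2) ≤ 2 ^ i₀ ∧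
      (A : ℝ) * (Jn N + 3) + (N : ℝ) ^ (1 - κ) + 1 ≤ (2 : ℝ) ^ i₀ / A := by
  have hAR : (0 : ℝ) < A := by exact_mod_cast hA
  have hA1 : (1 : ℝ) ≤ A := by exact_mod_cast hA
  obtain ⟨θ, hθ⟩ : ∃ θ : ℝ, θ = κ / 2 := ⟨_, rfl⟩
  have hθ0 : 0 < θ := by rw [hθ]; positivity
  obtain ⟨η, hη⟩ : ∃ η : ℝ, η = θ / (8 * A) := ⟨_, rfl⟩
  have hη0 : 0 < η := by rw [hη]; positivity
  have hθη : 8 * A * η = θ := by rw [hη]; field_simp
  have hρ := tendsto_ratio hD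
  have hlogo := (isLittleO_log_rpow_atTop (r := 1 / 2) (by norm_num)).comp_tendsto
    (tendsto_natCast_atTop_atTop (R := ℝ))
  have hcast := tendsto_natCast_atTop_atTop (R := ℝ)
  have hpow := (tendsto_rpow_atTop (y := κ / 2) (by positivity)).comp hcast
  have hhalf := (tendsto_rpow_atTop (y := (1 : ℝ) / 2) (by norm_num)).comp hcast
  have hρhalf := (tendsto_rpow_atTop (y := (1 : ℝ) / 2) (by norm_num)).comp hρ
  have hc0 : (0 : ℝ) < 1 / (256 * A * A) := by positivity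
  filter_upwards [hT.bound hη0, hρ.eventually_ge_atTop 2, hρhalf.eventually_ge_atTop (32 * A : ℝ),
    hlogo.bound hc0, hpow.eventually_ge_atTop (32 * A : ℝ),
    hhalf.eventually_ge_atTop (128 * (A * (3 * A + 1)) : ℝ), eventually_ge_atTop 4]
    with N n1 n2 n3 n4 n5 n6 n7
  simp only [Function.comp_apply] at n3 n4 n5 n6
  obtain ⟨ρ, hρdef⟩ : ∃ ρ : ℝ, ρ = (N : ℝ) / ((D N : ℝ) + 1) := ⟨_, rfl⟩
  rw [← hρdef] at n1 n2 n3
  have hN0 : (0 : ℝ) < N := by exact_mod_cast (by omega : 0 < N)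
  have hN1 : (1 : ℝ) ≤ N := by exact_mod_cast (by omega : 1 ≤ N)
  have hρ0 : 0 < ρ := by linarith
  have hρN : ρ ≤ N := by
    rw [hρdef]
    apply div_le_self hN0.le
    have : (0 : ℝ) ≤ D N := by positivity
    linarith
  have hlog : 0 < Real.log ρ := Real.log_pos (by linarith)
  rw [Real.norm_of_nonneg (by positivity), Real.norm_of_nonneg (by positivity)] at n1
  obtain ⟨L, hL⟩ : ∃ L, L = ⌊θ * Real.log ρ⌋₊ + 1 := ⟨_, rfl⟩
  have hL1 : θ * Real.log ρ < L := by rw [hL]; push_cast; exact Nat.lt_floor_add_one _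
  have hL2 : (L : ℝ) ≤ θ * Real.log ρ + 1 := by
    rw [hL]; push_cast
    have := Nat.floor_le (show 0 ≤ θ * Real.log ρ by positivity)
    linarith
  obtain ⟨j1, j2⟩ := Jn_spec n7
  have j2R : (N : ℝ) < 8 * 2 ^ Jn N := by exact_mod_cast j2
  have j1R : 4 * (2 : ℝ) ^ Jn N ≤ N := by exact_mod_cast j1
  -- the power of two
  have hpL : (2 : ℝ) ^ L ≤ 2 * ρ ^ θ := by
    calc (2 : ℝ) ^ L = (2 : ℝ) ^ (L : ℝ) := (Real.rpow_natCast _ _).symm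
      _ ≤ (2 : ℝ) ^ (θ * Real.log ρ + 1) :=
          Real.rpow_le_rpow_of_exponent_le (by norm_num) hL2
      _ = 2 * (2 : ℝ) ^ (θ * Real.log ρ) := by
          rw [Real.rpow_add (by norm_num), Real.rpow_one, mul_comm]
      _ ≤ 2 * ρ ^ θ := mul_le_mul_of_nonneg_left (two_rpow_le hθ0.le (by linarith)) (by norm_num)
  have hρθ : ρ ^ θ ≤ (N : ℝ) ^ θ := Real.rpow_le_rpow hρ0.le hρN hθ0.le
  have hNhalf : (N : ℝ) ^ θ ≤ (N : ℝ) ^ ((1 : ℝ) / 2) :=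
    Real.rpow_le_rpow_of_exponent_le hN1 (by rw [hθ]; linarith)
  have hsq : (N : ℝ) ^ ((1 : ℝ) / 2) * (N : ℝ) ^ ((1 : ℝ) / 2) = N := by
    rw [← Real.rpow_add hN0]; norm_num
  have hlast : (128 : ℝ) ≤ (N : ℝ) ^ ((1 : ℝ) / 2) := by nlinarith
  have hLJ : L ≤ Jn N := by
    by_contra hcon
    push Not at hcon
    have h2 : (2 : ℝ) ^ Jn N ≤ 2 ^ L := pow_le_pow_right₀ (by norm_num) hcon.le
    nlinarith
  obtain ⟨i₀, hi₀⟩ : ∃ i₀, Jn N = i₀ + L := ⟨Jn N - L, by omega⟩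
  refine ⟨i₀, L, hi₀, ?_, ?_, ?_⟩
  · have e1 : (A : ℝ) * T N ≤ θ * Real.log ρ * (N / 8) := by
      calc (A : ℝ) * T N ≤ A * (η * (N * Real.log ρ)) := mul_le_mul_of_nonneg_left n1 hAR.le
        _ = 8 * A * η * Real.log ρ * (N / 8) := by ring
        _ = _ := by rw [hθη]
    have e2 : (A : ℝ) * T N < L * 2 ^ (i₀ + L) := by
      rw [← hi₀]
      refine lt_of_le_of_lt e1 (mul_lt_mul hL1 (by linarith) (by positivity) (by positivity))
    exact_mod_cast e2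
  all_goals
    have e0 : (2 : ℝ) ^ Jn N = 2 ^ i₀ * 2 ^ L := by rw [hi₀, pow_add]
    have e1 : (N : ℝ) ≤ 16 * (2 ^ i₀ * ρ ^ θ) := by
      have h3 : (2 : ℝ) ^ i₀ * 2 ^ L ≤ 2 ^ i₀ * (2 * ρ ^ θ) :=
        mul_le_mul_of_nonneg_left hpL (by positivity)
      rw [e0] at j2R
      linarith
    have hρθ0 : 0 < ρ ^ θ := by positivity
  · have e2 : (N : ℝ) = ρ * (D N + 1) := by rw [hρdef]; field_simp
    have e3 : ρ = ρ ^ θ * ρ ^ (1 - θ) := by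
      rw [← Real.rpow_add hρ0]; norm_num
    have e4 : ρ ^ ((1 : ℝ) / 2) ≤ ρ ^ (1 - θ) :=
      Real.rpow_le_rpow_of_exponent_le (by linarith) (by rw [hθ]; linarith)
    have e5 : ρ ^ (1 - θ) * (D N + 1) ≤ 16 * 2 ^ i₀ := by
      rw [e2] at e1
      nth_rewrite 1 [e3] at e1
      have h3 : ρ ^ θ * (ρ ^ (1 - θ) * (D N + 1)) ≤ ρ ^ θ * (16 * 2 ^ i₀) := by linarith
      exact le_of_mul_le_mul_left h3 hρθ0
    have hD0 : (0 : ℝ) ≤ D N := by positivity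
    have e6 : (A : ℝ) * (D N + 2) ≤ 2 ^ i₀ := by
      have h3 : (32 * A : ℝ) * (D N + 1) ≤ 16 * 2 ^ i₀ :=
        (mul_le_mul_of_nonneg_right (n3.trans e4) (by positivity)).trans e5
      nlinarith
    exact_mod_cast e6
  · have hlogN : 0 ≤ Real.log N := Real.log_nonneg hN1
    rw [Real.norm_of_nonneg hlogN, Real.norm_of_nonneg (by positivity)] at n4
    have e2 : (N : ℝ) = (N : ℝ) ^ θ * (N : ℝ) ^ (1 - θ) := by
      rw [← Real.rpow_add hN0]; norm_num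
    have e3 : (N : ℝ) ^ (1 - θ) ≤ 16 * 2 ^ i₀ := by
      have h3 : (N : ℝ) ^ θ * (N : ℝ) ^ (1 - θ) ≤ (N : ℝ) ^ θ * (16 * 2 ^ i₀) := by
        rw [← e2]
        have h4 : (2 : ℝ) ^ i₀ * ρ ^ θ ≤ 2 ^ i₀ * (N : ℝ) ^ θ :=
          mul_le_mul_of_nonneg_left hρθ (by positivity)
        linarith
      exact le_of_mul_le_mul_left h3 (by positivity)
    have e4 : (N : ℝ) ^ (1 - θ) = (N : ℝ) ^ (κ / 2) * (N : ℝ) ^ (1 - κ) := by
      rw [← Real.rpow_add hN0]; congr 1; rw [hθ]; ring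
    have e5 : (N : ℝ) ^ ((1 : ℝ) / 2) ≤ (N : ℝ) ^ (1 - θ) :=
      Real.rpow_le_rpow_of_exponent_le hN1 (by rw [hθ]; linarith)
    have hJ : (Jn N : ℝ) ≤ 2 * Real.log N := by
      have h3 : (2 : ℝ) ^ Jn N ≤ N := by nlinarith [show (0 : ℝ) < 2 ^ Jn N by positivity]
      have h4 : Real.log ((2 : ℝ) ^ Jn N) ≤ Real.log N := Real.log_le_log (by positivity) h3
      rw [Real.log_pow] at h4
      have h5 : (1 : ℝ) / 2 ≤ Real.log 2 := by linarith [Real.log_two_gt_d9]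
      have h6 : (0 : ℝ) ≤ Jn N := by positivity
      nlinarith
    have hκ0 : 0 < (N : ℝ) ^ (1 - κ) := by positivity
    rw [le_div_iff₀ hAR]
    set x := (N : ℝ) ^ (1 - θ) with hx
    set y := (N : ℝ) ^ (1 - κ) with hy
    set z := (N : ℝ) ^ ((1 : ℝ) / 2) with hz
    have f1 : y * A ≤ x / 32 := by rw [e4]; nlinarith
    have f2 : (3 * A + 1) * (A : ℝ) ≤ x / 128 := by linarith
    have f3 : (A : ℝ) * Jn N * A ≤ x / 128 := by
      have g1 : (A : ℝ) * Jn N * A ≤ A * (2 * Real.log N) * A := by gcongr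
      have g2 : (A : ℝ) * (2 * Real.log N) * A ≤ A * (2 * (1 / (256 * A * A) * z)) * A := by gcongr
      have g3 : (A : ℝ) * (2 * (1 / (256 * A * A) * z)) * A = z / 128 := by field_simp; norm_num
      linarith
    nlinarith

section rare

variable {K : Type} [Fintype K] [DecidableEq K] {Γ : K → Type} [∀ k, Fintype (Γ k)] {Λ : Type}
    [Fintype Λ] {σ : Type} [Fintype σ] {b : ℕ} (hb : 2 ≤ b) {α : ℝ} (hα : ¬ Liouville α)
    (hirr : Irrational α) (M : Λ → TM2.Stmt Γ Λ σ) (l₀ : Λ) (v₀ : σ) {inp out : K}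
    (ne : out ≠ inp) (rd : Fin b → Γ inp) (wr : Γ out → ℤ) (E : ℝ)

include hb hα hirr ne

theorem trade_rare (T D : ℕ → ℕ) (hTm : Monotone T) (hDm : Monotone D) {κ : ℝ} (h0 : 0 < κ)
    (h1 : κ < 1) (hD : (fun n => (D n : ℝ)) =o[atTop] (fun n => (n : ℝ)))
    (hT : (fun n => (T n : ℝ)) =o[atTop] fun n => (n : ℝ) * Real.log ((n : ℝ) / ((D n : ℝ) + 1))) :
    ∀ᶠ N : ℕ in atTop, ∀ W : Finset (Fin N → Fin b),
      (∀ w ∈ W, RawMult M l₀ v₀ inp out rd wr α E T D (List.ofFn w)) →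
      (W.card : ℝ) < (b : ℝ) ^ ((N : ℝ) - (N : ℝ) ^ (1 - κ)) := by
  obtain ⟨A, hA, h⟩ := engine hb hα hirr M l₀ v₀ ne rd wr E
  filter_upwards [asy hA h0 h1 hD hT, eventually_ge_atTop 4] with N hN hN4 W hW
  obtain ⟨i₀, L, h3, h4, h5, h6⟩ := hN
  obtain ⟨h7, h8⟩ := Jn_spec hN4
  rw [h3] at h7
  have h9 : ∀ n ≤ 2 * 2 ^ (i₀ + L), n ≤ N := fun n hn => by omega
  refine card_lt hb hA h8 h6 (h T D N i₀ L (fun n hn => ?_) (fun n hn => ?_) h7 W hW)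
  · exact lt_of_le_of_lt (Nat.mul_le_mul_left _ (hTm (h9 n hn))) h4
  · exact (Nat.mul_le_mul_left _ (Nat.add_le_add_right (hDm (h9 n hn)) _)).trans h5

end rare

end Pool.Agent.H77.OL
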