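import Pool.Agent.H77.OL.Engine

/-!
The machine that multiplies by a rational number.
-/

namespace Pool.Agent.H77.OL

open Turing

section pos

variable {b q : ℕ}

/-- the next remainder -/
def nxt (p : ℤ) (s : Fin q × Fin b) : Fin q :=
  ⟨(((b : ℤ) * (s.1 : ℕ) + p * (s.2 : ℕ)) % q).toNat, by
    have h1 := Int.emod_nonneg ((b : ℤ) * (s.1 : ℕ) + p * (s.2 : ℕ)) (show (q : ℤ) ≠ 0 by
      have := s.1.2; omega)
    have h2 := Int.emod_lt_of_pos ((b : ℤ) * (s.1 : ℕ) + p * (s.2 : ℕ)) (show (0 : ℤ) < q by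
      have := s.1.2; omega)
    omega⟩

theorem nxt_val (p : ℤ) (s : Fin q × Fin b) :
    ((nxt p s : ℕ) : ℤ) = ((b : ℤ) * (s.1 : ℕ) + p * (s.2 : ℕ)) % q := by
  unfold nxt
  simp only
  rw [Int.toNat_of_nonneg]
  exact Int.emod_nonneg _ (by have := s.1.2; omega)

/-- the output digit -/
def wrP (p : ℤ) (s : Fin q × Fin b) : ℤ := ((b : ℤ) * (s.1 : ℕ) + p * (s.2 : ℕ)) / q

/-- the program -/
def progP (hb : 0 < b) (p : ℤ) : Unit → TM2.Stmt (fun _ : Bool => Fin q × Fin b) Unit (Fin q × Fin b) := fun _ =>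
  TM2.Stmt.pop true (fun s o => (s.1, (o.map Prod.snd).getD ⟨0, hb⟩))
    (TM2.Stmt.push false (fun s => s)
      (TM2.Stmt.load (fun s => (nxt p s, s.2)) (TM2.Stmt.goto (fun _ => ()))))

/-- remainders -/
def rem (hq : 0 < q) (p : ℤ) (d : ℕ → Fin b) : ℕ → Fin q
  | 0 => ⟨0, hq⟩
  | n + 1 => nxt p (rem hq p d n, d n)

/-- the output stack -/
def outP (hq : 0 < q) (p : ℤ) (d : ℕ → Fin b) : ℕ → List (Fin q × Fin b)
  | 0 => []
  | n + 1 => (rem hq p d n, d n) :: outP hq p d n

theorem outP_length (hq : 0 < q) (p : ℤ) (d : ℕ → Fin b) (n : ℕ) : (outP hq p d n).length = n := by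
  induction n with
  | zero => rfl
  | succ n ih => simp [outP, ih]

theorem outP_suffix (hq : 0 < q) (p : ℤ) (d : ℕ → Fin b) {n m : ℕ} (h : n ≤ m) : outP hq p d n <:+ outP hq p d m := by
  induction m, h using Nat.le_induction with
  | base => exact List.suffix_refl _
  | succ m _ ih => exact ih.trans (List.suffix_cons _ _)

theorem outP_get (hq : 0 < q) (p : ℤ) (d : ℕ → Fin b) (n : ℕ) : ∀ i < n,
    (outP hq p d n).reverse[i]? = some (rem hq p d i, d i) := by
  induction n with
  | zero => intro i hi; omega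
  | succ n ih =>
    intro i hi
    show ((rem hq p d n, d n) :: outP hq p d n).reverse[i]? = _
    rw [List.reverse_cons]
    rcases Nat.lt_or_ge i n with h | h
    · rw [List.getElem?_append_left (by rw [List.length_reverse, outP_length]; exact h)]
      exact ih i h
    · have : i = n := by omega
      subst this
      rw [List.getElem?_append_right (by rw [List.length_reverse, outP_length]),
        List.length_reverse, outP_length]
      simp

theorem run_P (hb : 0 < b) (hq : 0 < q) (p : ℤ) (w : List (Fin b)) (t : ℕ) : ∃ v : Fin b,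
    cfg (progP hb p) () (⟨0, hq⟩, ⟨0, hb⟩)
      (Function.update (fun _ => []) true (w.map fun y => ((⟨0, hq⟩ : Fin q), y))) t =
    some ⟨some (), (rem hq p (fun i => w.getD i ⟨0, hb⟩) t, v), fun k => match k with
      | true => (w.map fun y => ((⟨0, hq⟩ : Fin q), y)).drop t
      | false => outP hq p (fun i => w.getD i ⟨0, hb⟩) t⟩ := by
  induction t with
  | zero =>
    refine ⟨⟨0, hb⟩, ?_⟩
    rw [cfg_zero]
    congr 2
    funext k
    cases k <;> rfl
  | succ t ih =>
    obtain ⟨v, hv⟩ := ih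
    refine ⟨w.getD t ⟨0, hb⟩, ?_⟩
    rw [cfg_succ, hv, Option.bind_some]
    have hd : (Option.map Prod.snd ((w.map fun y => ((⟨0, hq⟩ : Fin q), y)).drop t).head?).getD
        ⟨0, hb⟩ = w.getD t ⟨0, hb⟩ := by
      rw [List.head?_drop, List.getElem?_map, Option.map_map, List.getD_eq_getElem?_getD]
      rcases w[t]? with _ | y <;> rfl
    show some (TM2.stepAux (progP hb p ()) _ _) = _
    congr 1
    unfold progP
    simp only [TM2.stepAux]
    rw [hd]
    congr 1
    funext k
    cases k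
    · simp only [Function.update_self]
      rw [Function.update_of_ne (by decide)]
      rfl
    · rw [Function.update_of_ne (by decide), Function.update_self]
      simp

theorem rem_inv (hq : 0 < q) (p : ℤ) (d : ℕ → Fin b) (n : ℕ) :
    p * hor b (fun i => ((d i : ℕ) : ℤ)) n =
      q * hor b (fun i => wrP p (rem hq p d i, d i)) n + ((rem hq p d n : ℕ) : ℤ) := by
  induction n with
  | zero => simp [hor, rem]
  | succ n ih =>
    show p * ((b : ℤ) * hor b (fun i => ((d i : ℕ) : ℤ)) n + ((d n : ℕ) : ℤ)) =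
      q * ((b : ℤ) * hor b (fun i => wrP p (rem hq p d i, d i)) n + wrP p (rem hq p d n, d n)) +
        ((nxt p (rem hq p d n, d n) : ℕ) : ℤ)
    rw [nxt_val]
    unfold wrP at ih ⊢
    simp only at ih ⊢
    have h1 := Int.mul_ediv_add_emod ((b : ℤ) * (rem hq p d n : ℕ) + p * (d n : ℕ)) q
    linear_combination (b : ℤ) * ih - h1

theorem hor_tail {d : ℕ → ℤ} (h0 : ∀ i, 0 ≤ d i) (h1 : ∀ i, d i + 1 ≤ b) (n m : ℕ) :
    (b : ℤ) ^ m * hor b d n ≤ hor b d (n + m) ∧
      hor b d (n + m) + 1 ≤ (b : ℤ) ^ m * (hor b d n + 1) := by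
  induction m with
  | zero => simp
  | succ m ih =>
    show (b : ℤ) ^ (m + 1) * hor b d n ≤ (b : ℤ) * hor b d (n + m) + d (n + m) ∧
      (b : ℤ) * hor b d (n + m) + d (n + m) + 1 ≤ (b : ℤ) ^ (m + 1) * (hor b d n + 1)
    have hb0 : (0 : ℤ) ≤ b := by positivity
    have e1 := mul_le_mul_of_nonneg_left ih.1 hb0
    have e2 := mul_le_mul_of_nonneg_left ih.2 hb0
    have e3 := h0 (n + m)
    have e4 := h1 (n + m)
    rw [pow_succ]
    constructor
    · linarith
    · linarith

theorem mult_rat (hb : 0 < b) (hq : 0 < q) (p : ℤ) (w : List (Fin b)) :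
    RawMult (progP hb p) () (⟨0, hq⟩, ⟨0, hb⟩) true false (fun y => ((⟨0, hq⟩ : Fin q), y)) (wrP p)
      ((p : ℝ) / q) (|(p : ℝ) / q| + 1) (fun n => n + 1) (fun _ => 0) w := by
  have hrun := run_P hb hq p w
  set d : ℕ → Fin b := fun i => w.getD i ⟨0, hb⟩ with hd
  refine ⟨?_, ?_, ?_⟩
  · intro t t' htt C C' hC hC'
    obtain ⟨v, hv⟩ := hrun t
    obtain ⟨v', hv'⟩ := hrun t'
    rw [hC] at hv
    rw [hC'] at hv'
    rw [Option.some.inj hv, Option.some.inj hv']
    show (List.map _ w).drop t' <:+ (List.map _ w).drop t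
    obtain ⟨s, rfl⟩ : ∃ s, t' = t + s := ⟨t' - t, by omega⟩
    rw [← List.drop_drop]
    exact List.drop_suffix _ _
  · intro t t' htt C C' hC hC'
    obtain ⟨v, hv⟩ := hrun t
    obtain ⟨v', hv'⟩ := hrun t'
    rw [hC] at hv
    rw [hC'] at hv'
    rw [Option.some.inj hv, Option.some.inj hv']
    exact outP_suffix hq p d htt
  · intro n hn
    obtain ⟨v, hv⟩ := hrun n
    refine ⟨n, Nat.le_succ n, _, hv, ?_, ?_, ?_⟩
    · show w.length ≤ ((w.map _).drop n).length + (n + 0)
      rw [List.length_drop, List.length_map]; omega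
    · show n ≤ (outP hq p d n).length
      rw [outP_length]
    · have e1 : vl b (w.map fun a : Fin b => ((a : ℕ) : ℤ)) =
          (hor b (fun i => ((d i : ℕ) : ℤ)) w.length : ℝ) / (b : ℝ) ^ w.length := by
        apply vl_eq hb
        · simp
        · intro i hi
          simp [hd, List.getD_eq_getElem?_getD, List.getElem?_eq_getElem hi]
      have e2 : vl b ((((outP hq p d n).reverse).take n).map (wrP p)) =
          (hor b (fun i => wrP p (rem hq p d i, d i)) n : ℝ) / (b : ℝ) ^ n := by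
        apply vl_eq hb
        · simp [outP_length]
        · intro i hi
          rw [List.getD_eq_getElem?_getD, List.getElem?_map, List.getElem?_take, if_pos hi,
            outP_get hq p d n i hi]
          rfl
      show |_ - vl b ((((outP hq p d n).reverse).take n).map (wrP p))| ≤ _
      rw [e1, e2]
      obtain ⟨m, hm⟩ : ∃ m, w.length = n + m := ⟨w.length - n, by omega⟩
      rw [hm]
      have hbR : (0 : ℝ) < b := by exact_mod_cast hb
      have hqR : (0 : ℝ) < q := by exact_mod_cast hq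
      obtain ⟨t1, t2⟩ := hor_tail (b := b) (d := fun i => ((d i : ℕ) : ℤ)) (fun i => by positivity)
        (fun i => by have := (d i).2; omega) n m
      have inv := rem_inv hq p d n
      set Y : ℤ := hor b (fun i => ((d i : ℕ) : ℤ)) n with hY
      set Z : ℤ := hor b (fun i => ((d i : ℕ) : ℤ)) (n + m) with hZ
      set A : ℤ := hor b (fun i => wrP p (rem hq p d i, d i)) n with hA
      have t1R : (b : ℝ) ^ m * Y ≤ Z := by exact_mod_cast t1
      have t2R : (Z : ℝ) + 1 ≤ (b : ℝ) ^ m * (Y + 1) := by exact_mod_cast t2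
      have invR : (p : ℝ) * Y = q * A + (rem hq p d n : ℕ) := by exact_mod_cast inv
      have hrem : ((rem hq p d n : ℕ) : ℝ) ≤ q := by exact_mod_cast (rem hq p d n).2.le
      have key : (p : ℝ) / q * ((Z : ℝ) / (b : ℝ) ^ (n + m)) - (A : ℝ) / (b : ℝ) ^ n =
          (p / q * ((Z - (b : ℝ) ^ m * Y) / (b : ℝ) ^ m) + (rem hq p d n : ℕ) / q) /
            (b : ℝ) ^ n := by
        have : (A : ℝ) = (p * Y - (rem hq p d n : ℕ)) / q := by rw [invR]; field_simp; ring
        rw [this, pow_add]
        field_simp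
        ring
      rw [key, abs_div, abs_of_pos (show (0 : ℝ) < (b : ℝ) ^ n by positivity)]
      apply div_le_div_of_nonneg_right _ (by positivity)
      refine (abs_add_le _ _).trans (add_le_add ?_ ?_)
      · rw [abs_mul]
        have h1 : |(Z - (b : ℝ) ^ m * Y) / (b : ℝ) ^ m| ≤ 1 := by
          rw [abs_div, abs_of_pos (show (0 : ℝ) < (b : ℝ) ^ m by positivity),
            abs_of_nonneg (by linarith), div_le_one (by positivity)]
          linarith
        calc |(p : ℝ) / q| * |(Z - (b : ℝ) ^ m * Y) / (b : ℝ) ^ m| ≤ |(p : ℝ) / q| * 1 :=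
              mul_le_mul_of_nonneg_left h1 (abs_nonneg _)
          _ = _ := mul_one _
      · rw [abs_of_nonneg (by positivity), div_le_one hqR]
        exact hrem

end pos

end Pool.Agent.H77.OL
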