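import Pool.Agent.H77.OL.Pair

/-!
Counting: words with a small overlap at a given place, words with early output.
-/

namespace Pool.Agent.H77.OL

open Pool.Agent.H77.RT

variable {K : Type} [DecidableEq K] {Γ : K → Type} {Q : Type} {b : ℕ}

theorem Sys.App.earlier {M : Sys K Γ Q b} {α E : ℝ} {N : ℕ} {w : Fin N → Fin b} {t n T t' : ℕ}
    (h : M.App α E w t' n) (hM : M.Mono w T) (h1 : t ≤ t') (h2 : t' ≤ T) (hn : n ≤ M.h w M.out t) :
    M.App α E w t n := by
  refine ⟨hn, ?_⟩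
  have e1 : hor b (digs M.wr (M.S w t' M.out)) n = hor b (digs M.wr (M.S w t M.out)) n := by
    apply hor_congr
    intro i hi
    exact (digs_suffix M.wr (hM.hout t t' h1 h2) (lt_of_lt_of_le hi hn)).symm
  rw [← e1]; exact h.err

variable (M : Sys K Γ Q b) {N : ℕ}

theorem early_inj {α E : ℝ} (hb : 2 ≤ b) (hα : α ≠ 0) {C₁ : ℕ}
    (hC₁ : 2 * E ≤ |α| * (b : ℝ) ^ C₁) {j x n : ℕ} {w w' : Fin N → Fin b} {T T' : ℕ}
    (hM' : M.Mono w' T') (hM : M.Mono w T)
    (hj : N ≤ M.h w M.inp T + (j + M.D))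
    (hA : M.App α E w T n) (hA' : M.App α E w' T' n) (hoff : Off (j + 2 * M.D) x w w')
    (hx : j + 2 * M.D + x ≤ N) (hn : j + 2 * M.D + x + C₁ < n) (hTT : T ≤ T') : w = w' := by
  by_contra hne
  have hag := M.agree (w := w) (w' := w') (p := j + 2 * M.D) (t := T) (by omega) (by
      intro i hi
      exact hoff i (by omega)) (by
      intro s hs
      have := hM.anti hs.le le_rfl
      omega)
  have hout := hag.2.1 M.out M.ne
  have hA2 : M.App α E w' T n := hA'.earlier hM' hTT le_rfl (by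
    have := hA.len
    unfold Sys.h at this ⊢
    rwa [hout] at this)
  have := early_dioph hb hα hC₁ hoff hne hx (n := n) (e := digs M.wr (M.S w T M.out))
    (e' := digs M.wr (M.S w' T M.out)) (fun i _ => by rw [hout]) hA.err hA2.err
  omega

/-- few words have an early output -/
theorem early_card {α E : ℝ} (hb : 2 ≤ b) (hα : α ≠ 0) {C₁ : ℕ}
    (hC₁ : 2 * E ≤ |α| * (b : ℝ) ^ C₁) {j x n : ℕ} (W : Finset (Fin N → Fin b))
    (hW : ∀ w ∈ W, ∃ T, M.Mono w T ∧ N ≤ M.h w M.inp T + (j + M.D) ∧ M.App α E w T n)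
    (hx : j + 2 * M.D + x ≤ N) (hn : j + 2 * M.D + x + C₁ < n) : W.card ≤ b ^ (N - x) := by
  have h1 := card_window W (s := j + 2 * M.D) (x := x) (c := 1) hx (by
    intro V hV hoff
    rw [Finset.card_le_one]
    intro w hw w' hw'
    obtain ⟨T, hM, hj, hA⟩ := hW w (hV hw)
    obtain ⟨T', hM', hj', hA'⟩ := hW w' (hV hw')
    rcases le_total T T' with h | h
    · exact early_inj M hb hα hC₁ hM' hM hj hA hA' (hoff w hw w' hw') hx hn h
    · exact (early_inj M hb hα hC₁ hM hM' hj' hA' hA (hoff w' hw' w hw) hx hn h).symm)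
  rwa [one_mul] at h1

/-- the number of codes -/
def ncode (cQ cK g H L : ℕ) : ℕ := cQ * ((H + 1) ^ (3 * cK) * g ^ L)

theorem pair_card [Fintype K] [Fintype Q] [∀ k, Fintype (Γ k)] {α E : ℝ} (hb : 2 ≤ b) {d C₁ C₂ : ℕ}
    (hL : Dio b α d C₂)
    (hC₁ : 2 * E ≤ (b : ℝ) ^ C₁) {P' Δ a m x y W₀ Tmax : ℕ} (W : Finset (Fin N → Fin b))
    (hW : ∀ w ∈ W, ∃ T ≤ Tmax, M.G α E P' Δ w T)
    (hx : M.D + x ≤ m) (hP : a + 2 * m ≤ P') (hPN : P' ≤ N)
    (hearly : ∀ w ∈ W, M.h w M.out (M.τ w (a + m)) ≤ a + m + y)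
    (hm : Δ + y + d * (x + y) + C₁ + C₂ < m)
    (hov : ∀ w ∈ W, ∀ k, ovl (M.h w k) (M.τ w a) (M.τ w (a + m)) (M.τ w (a + 2 * m)) ≤ W₀) :
    W.card ≤ ncode (Fintype.card Q) (Fintype.card K) (∏ k, (Fintype.card (Γ k) + 1))
      (N + M.P * Tmax) (W₀ + M.D) * b ^ (N - x) := by
  classical
  apply card_window W (s := a + m - x) (x := x) (by omega)
  intro V hV hoff
  have hHk : ∀ w ∈ V, ∀ k, M.h w k (M.τ w (a + m)) ≤ N + M.P * Tmax := by
    intro w hw k
    obtain ⟨T, hT, hG⟩ := hW w (hV hw)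
    have h1 := M.h_le w k (M.τ w (a + m))
    have h2 : M.τ w (a + m) ≤ T := M.τ_le (by have := hG.pop; omega)
    have h3 := Nat.mul_le_mul_left M.P (h2.trans hT)
    omega
  have hord : ∀ w ∈ V, M.τ w a ≤ M.τ w (a + m) ∧ M.τ w (a + m) ≤ M.τ w (a + 2 * m) := by
    intro w hw
    obtain ⟨T, hT, hG⟩ := hW w (hV hw)
    have := hG.pop
    exact ⟨M.τ_mono (t := T) (by omega) (by omega), M.τ_mono (t := T) (by omega) (by omega)⟩
  set H := N + M.P * Tmax with hH
  let f : (Fin N → Fin b) → Q × (∀ k : K, (Fin (H + 1) × Fin (H + 1) × Fin (H + 1)) ×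
      (Fin (W₀ + M.D) → Option (Γ k))) := fun w =>
    (M.q w (M.τ w (a + m)), fun k => ((Fin.ofNat (H + 1) (M.h w k (M.τ w (a + m))),
      Fin.ofNat (H + 1) (mn (M.h w k) (M.τ w a) (M.τ w (a + m))),
      Fin.ofNat (H + 1) (mn (M.h w k) (M.τ w (a + m)) (M.τ w (a + 2 * m)))),
      fun i => ((M.S w (M.τ w (a + m)) k).take
        (ovl (M.h w k) (M.τ w a) (M.τ w (a + m)) (M.τ w (a + 2 * m)) + M.D))[(i : ℕ)]?))
  have hcard : Fintype.card (Q × (∀ k : K, (Fin (H + 1) × Fin (H + 1) × Fin (H + 1)) ×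
      (Fin (W₀ + M.D) → Option (Γ k)))) = ncode (Fintype.card Q) (Fintype.card K)
        (∏ k, (Fintype.card (Γ k) + 1)) H (W₀ + M.D) := by
    rw [Fintype.card_prod, Fintype.card_pi]
    unfold ncode
    congr 1
    simp only [Fintype.card_prod, Fintype.card_fun, Fintype.card_fin, Fintype.card_option]
    rw [Finset.prod_mul_distrib, Finset.prod_const, Finset.card_univ, Finset.prod_pow,
      pow_mul]
    congr 2
    ring
  rw [← hcard, ← Finset.card_univ]
  apply Finset.card_le_card_of_injOn f (fun _ _ => Finset.mem_univ _)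
  intro w hw w' hw' hf
  have hw : w ∈ V := hw
  have hw' : w' ∈ V := hw'
  obtain ⟨T, hT, hG⟩ := hW w (hV hw)
  obtain ⟨T', hT', hG'⟩ := hW w' (hV hw')
  have hfq := congrArg Prod.fst hf
  have hf2 := congrArg Prod.snd hf
  have hfk : ∀ k, _ := fun k => congrFun hf2 k
  have ofNat_inj : ∀ u v : ℕ, u ≤ H → v ≤ H → Fin.ofNat (H + 1) u = Fin.ofNat (H + 1) v → u = v := by
    intro u v hu hv huv
    have := congrArg Fin.val huv
    simp only [Fin.val_ofNat] at this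
    rwa [Nat.mod_eq_of_lt (by omega), Nat.mod_eq_of_lt (by omega)] at this
  have ch : ∀ k, M.h w k (M.τ w (a + m)) = M.h w' k (M.τ w' (a + m)) := by
    intro k
    exact ofNat_inj _ _ (hHk w hw k) (hHk w' hw' k) (congrArg (fun z => z.1.1) (hfk k))
  have cl : ∀ k, mn (M.h w k) (M.τ w a) (M.τ w (a + m)) =
      mn (M.h w' k) (M.τ w' a) (M.τ w' (a + m)) := by
    intro k
    refine ofNat_inj _ _ ((mn_le _ (hord w hw).1 le_rfl).trans (hHk w hw k))
      ((mn_le _ (hord w' hw').1 le_rfl).trans (hHk w' hw' k)) (congrArg (fun z => z.1.2.1) (hfk k))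
  have cr : ∀ k, mn (M.h w k) (M.τ w (a + m)) (M.τ w (a + 2 * m)) =
      mn (M.h w' k) (M.τ w' (a + m)) (M.τ w' (a + 2 * m)) := by
    intro k
    refine ofNat_inj _ _ ((mn_le _ le_rfl (hord w hw).2).trans (hHk w hw k))
      ((mn_le _ le_rfl (hord w' hw').2).trans (hHk w' hw' k)) (congrArg (fun z => z.1.2.2) (hfk k))
  refine pair_inj M hb hL hC₁ hG hG' (hoff w hw w' hw') hx hP (hearly w (hV hw)) hm hfq ch cl cr ?_
  intro k
  have h1 : (fun i : Fin (W₀ + M.D) => ((M.S w (M.τ w (a + m)) k).take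
        (ovl (M.h w k) (M.τ w a) (M.τ w (a + m)) (M.τ w (a + 2 * m)) + M.D))[(i : ℕ)]?) =
      (fun i : Fin (W₀ + M.D) => ((M.S w' (M.τ w' (a + m)) k).take
        (ovl (M.h w' k) (M.τ w' a) (M.τ w' (a + m)) (M.τ w' (a + 2 * m)) + M.D))[(i : ℕ)]?) :=
    congrArg Prod.snd (hfk k)
  apply List.ext_getElem?
  intro i
  have o1 := hov w (hV hw) k
  have o2 := hov w' (hV hw') k
  by_cases hi : i < W₀ + M.D
  · exact congrFun h1 ⟨i, hi⟩
  · rw [List.getElem?_eq_none (by rw [List.length_take]; omega),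
      List.getElem?_eq_none (by rw [List.length_take]; omega)]

end Pool.Agent.H77.OL
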