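import Pool.Agent.H77.OL.Tm

/-!
The bound for the number of words on which a machine multiplies fast by a number that is neither rational
nor Liouville.
-/

namespace Pool.Agent.H77.OL

open Pool.Agent.H77.RT Turing

/-- the Diophantine property of numbers that are neither rational nor Liouville -/
theorem dio_of_not_liouville {b : ℕ} (hb : 2 ≤ b) {α : ℝ} (hα : ¬ Liouville α) (hirr : Irrational α) :
    ∃ d, Dio b α d d := by
  unfold Liouville at hα
  push Not at hα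
  obtain ⟨n, hn⟩ := hα
  refine ⟨n, fun N Q j e hQ hQe hj => ?_⟩
  have h1 := hn (2 * N) (2 * Q) (by omega) (by
    intro h
    exact (irrational_iff_ne_rational α).1 hirr (2 * N) (2 * Q) (by positivity) h)
  have hQR : (0 : ℝ) < Q := by exact_mod_cast hQ
  have e1 : α - ((2 * N : ℤ) : ℝ) / ((2 * (Q : ℤ) : ℤ) : ℝ) = α - N / Q := by
    push_cast
    congr 1
    field_simp
  rw [e1] at h1
  have hb1 : (1 : ℝ) < b := by exact_mod_cast (by omega : 1 < b)
  have h2 : ((2 * (Q : ℤ) : ℤ) : ℝ) ≤ (b : ℝ) ^ (e + 1) := by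
    push_cast
    rw [pow_succ, mul_comm]
    have h3 : (Q : ℝ) ≤ (b : ℝ) ^ e := by exact_mod_cast hQe
    have h4 : (2 : ℝ) ≤ b := by exact_mod_cast hb
    exact mul_le_mul h3 h4 (by norm_num) (by positivity)
  have h3 : (1 : ℝ) / ((b : ℝ) ^ (e + 1)) ^ n ≤ |α - N / Q| := by
    refine le_trans ?_ h1
    apply one_div_le_one_div_of_le
    · push_cast; positivity
    · apply pow_le_pow_left₀ (by push_cast; positivity) h2
  have h4 : (b : ℝ) ^ j ≤ (b : ℝ) ^ ((e + 1) * n) := by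
    rw [pow_mul]
    have h5 : (1 : ℝ) / ((b : ℝ) ^ (e + 1)) ^ n * (b : ℝ) ^ j ≤ 1 :=
      (mul_le_mul_of_nonneg_right h3 (by positivity)).trans hj
    rw [one_div, inv_mul_le_iff₀ (by positivity), mul_one] at h5
    exact h5
  have h5 := (pow_le_pow_iff_right₀ hb1).1 h4
  calc j ≤ (e + 1) * n := h5
    _ = n * e + n := by ring

/-- value of a list of digits -/
noncomputable def vl (b : ℕ) (l : List ℤ) : ℝ :=
  ∑ i ∈ Finset.range l.length, (l.getD i 0 : ℝ) / (b : ℝ) ^ (i + 1)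

theorem hor_div {b : ℕ} (hb : 0 < b) (d : ℕ → ℤ) (n : ℕ) :
    (hor b d n : ℝ) / (b : ℝ) ^ n = ∑ i ∈ Finset.range n, (d i : ℝ) / (b : ℝ) ^ (i + 1) := by
  induction n with
  | zero => simp [hor]
  | succ n ih =>
    rw [Finset.sum_range_succ, ← ih]
    show (((b : ℤ) * hor b d n + d n : ℤ) : ℝ) / _ = _
    have : (0 : ℝ) < b := by exact_mod_cast hb
    push_cast
    rw [pow_succ]
    field_simp

theorem vl_eq {b : ℕ} (hb : 0 < b) (l : List ℤ) {d : ℕ → ℤ} {n : ℕ} (hn : l.length = n)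
    (h : ∀ i < n, l.getD i 0 = d i) : vl b l = (hor b d n : ℝ) / (b : ℝ) ^ n := by
  rw [hor_div hb]
  unfold vl
  rw [hn]
  apply Finset.sum_congr rfl
  intro i hi
  rw [h i (Finset.mem_range.1 hi)]

section raw

variable {K : Type} [DecidableEq K] {Γ : K → Type} {Λ : Type} {σ : Type}

/-- the machine multiplies the word `w` by `α` -/
structure RawMult {b : ℕ} (M : Λ → TM2.Stmt Γ Λ σ) (l₀ : Λ) (v₀ : σ) (inp out : K)
    (rd : Fin b → Γ inp) (wr : Γ out → ℤ) (α E : ℝ) (T D : ℕ → ℕ) (w : List (Fin b)) : Prop where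
  reads : ∀ t t' : ℕ, t ≤ t' → ∀ C C' : TM2.Cfg Γ Λ σ,
    cfg M l₀ v₀ (Function.update (fun _ => []) inp (w.map rd)) t = some C →
    cfg M l₀ v₀ (Function.update (fun _ => []) inp (w.map rd)) t' = some C' →
    C'.stk inp <:+ C.stk inp
  writes : ∀ t t' : ℕ, t ≤ t' → ∀ C C' : TM2.Cfg Γ Λ σ,
    cfg M l₀ v₀ (Function.update (fun _ => []) inp (w.map rd)) t = some C →
    cfg M l₀ v₀ (Function.update (fun _ => []) inp (w.map rd)) t' = some C' →
    C.stk out <:+ C'.stk out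
  works : ∀ n, n + D n ≤ w.length → ∃ t ≤ T n, ∃ C : TM2.Cfg Γ Λ σ,
    cfg M l₀ v₀ (Function.update (fun _ => []) inp (w.map rd)) t = some C ∧
    w.length ≤ (C.stk inp).length + (n + D n) ∧ n ≤ (C.stk out).length ∧
    |α * vl b (w.map fun a : Fin b => ((a : ℕ) : ℤ)) - vl b (((C.stk out).reverse.take n).map wr)| ≤
      E / (b : ℝ) ^ n

variable [Fintype Λ]

theorem fine_of_mult {b : ℕ} (hb : 0 < b) {M : Λ → TM2.Stmt Γ Λ σ} {l₀ : Λ} {v₀ : σ} {inp out : K}
    (ne : out ≠ inp) {rd : Fin b → Γ inp} {wr : Γ out → ℤ} {α E : ℝ} {T D : ℕ → ℕ} {N : ℕ}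
    {w : Fin N → Fin b} (h : RawMult M l₀ v₀ inp out rd wr α E T D (List.ofFn w)) {nb Δ Tmax : ℕ}
    (hT : ∀ n ≤ nb, T n ≤ Tmax) (hD : ∀ n ≤ nb, D n < Δ) (hN : nb + Δ ≤ N) :
    (toSys M l₀ v₀ inp out ne rd wr).Fine α E nb Δ Tmax w := by
  classical
  have hlen : (List.ofFn w).length = N := List.length_ofFn
  have h1 : ∀ n, ∃ t, n ≤ nb → t ≤ Tmax ∧ ∃ C : TM2.Cfg Γ Λ σ,
      cfg M l₀ v₀ (Function.update (fun _ => []) inp ((List.ofFn w).map rd)) t = some C ∧
      N < (C.stk inp).length + (n + Δ) ∧ n ≤ (C.stk out).length ∧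
      |α * vl b ((List.ofFn w).map fun a : Fin b => ((a : ℕ) : ℤ)) -
        vl b (((C.stk out).reverse.take n).map wr)| ≤ E / (b : ℝ) ^ n := by
    intro n
    by_cases hn : n ≤ nb
    · have d1 := hD n hn
      obtain ⟨t, ht, C, hC, c1, c2, c3⟩ := h.works n (by rw [hlen]; omega)
      rw [hlen] at c1
      exact ⟨t, fun _ => ⟨ht.trans (hT n hn), C, hC, by omega, c2, c3⟩⟩
    · exact ⟨0, fun h => absurd h hn⟩
  choose t ht using h1
  obtain ⟨n₀, hn₀, hmax⟩ := Finset.exists_max_image (Finset.range (nb + 1)) t ⟨0, by simp⟩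
  have hn₀' : n₀ ≤ nb := by simpa [Nat.lt_succ_iff] using hn₀
  obtain ⟨hT0, C₀, hC₀, -⟩ := ht n₀ hn₀'
  refine ⟨t n₀, hT0, ⟨?_, ?_⟩, ?_⟩
  · intro s s' hs hs'
    obtain ⟨C', hC'⟩ := cfg_some_of_le M l₀ v₀ hs' hC₀
    obtain ⟨C, hC⟩ := cfg_some_of_le M l₀ v₀ hs hC'
    rw [(toSys_run M l₀ v₀ inp out ne rd wr w s C hC).2,
      (toSys_run M l₀ v₀ inp out ne rd wr w s' C' hC').2]
    exact h.reads s s' hs C C' hC hC'
  · intro s s' hs hs'
    obtain ⟨C', hC'⟩ := cfg_some_of_le M l₀ v₀ hs' hC₀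
    obtain ⟨C, hC⟩ := cfg_some_of_le M l₀ v₀ hs hC'
    rw [(toSys_run M l₀ v₀ inp out ne rd wr w s C hC).2,
      (toSys_run M l₀ v₀ inp out ne rd wr w s' C' hC').2]
    exact h.writes s s' hs C C' hC hC'
  · intro n hn
    obtain ⟨-, C, hC, c1, c2, c3⟩ := ht n hn
    have hS := (toSys_run M l₀ v₀ inp out ne rd wr w (t n) C hC).2
    refine ⟨t n, hmax n (by simpa [Nat.lt_succ_iff] using hn), ?_, ?_, ?_⟩
    · unfold Sys.h; rw [hS]; exact c1
    · unfold Sys.h; rw [hS]; exact c2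
    · rw [hS]
      have e1 : vl b ((List.ofFn w).map fun a : Fin b => ((a : ℕ) : ℤ)) = val b w := by
        unfold val
        apply vl_eq hb
        · simp
        · intro i hi
          unfold dg
          rw [dif_pos hi]
          simp [List.getD_eq_getElem?_getD, hi]
      have e2 : vl b (((C.stk out).reverse.take n).map wr) =
          (hor b (digs wr (C.stk out)) n : ℝ) / (b : ℝ) ^ n := by
        apply vl_eq hb
        · simp; exact c2
        · intro i hi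
          unfold digs
          rw [List.getD_eq_getElem?_getD, List.getElem?_map, List.getElem?_take, if_pos hi]
      rw [← e1]
      show |_ - (hor b (digs wr (C.stk out)) n : ℝ) / (b : ℝ) ^ n| ≤ _
      rw [← e2]
      exact c3

end raw

end Pool.Agent.H77.OL
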