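import Pool.Agent.H77.RT.Norm

/-!
Digit words, their values, windows of digits and the Diophantine input.
-/

namespace Pool.Agent.H77.OL

/-- Horner value of the first `n` digits -/
def hor (b : ℕ) (d : ℕ → ℤ) : ℕ → ℤ
  | 0 => 0
  | n + 1 => b * hor b d n + d n

theorem hor_congr {b : ℕ} {d d' : ℕ → ℤ} {n : ℕ} (h : ∀ i < n, d i = d' i) : hor b d n = hor b d' n := by
  induction n with
  | zero => rfl
  | succ n ih =>
    show (b : ℤ) * hor b d n + d n = b * hor b d' n + d' n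
    rw [ih (fun i hi => h i (by omega)), h n (Nat.lt_succ_self n)]

theorem hor_add {b : ℕ} {d d' : ℕ → ℤ} {q n : ℕ} (h : ∀ i, q ≤ i → i < q + n → d i = d' i) :
    hor b d (q + n) - hor b d' (q + n) = b ^ n * (hor b d q - hor b d' q) := by
  induction n with
  | zero => simp
  | succ n ih =>
    show (b : ℤ) * hor b d (q + n) + d (q + n) - (b * hor b d' (q + n) + d' (q + n)) = _
    rw [h (q + n) (by omega) (by omega), pow_succ]
    have := ih (fun i h1 h2 => h i h1 (by omega))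
    linear_combination (b : ℤ) * this

/-- digits of a word as a sequence of integers -/
def dg {N b : ℕ} (w : Fin N → Fin b) (i : ℕ) : ℤ := if h : i < N then (w ⟨i, h⟩ : ℕ) else 0

theorem dg_nonneg {N b : ℕ} (w : Fin N → Fin b) (i : ℕ) : 0 ≤ dg w i := by
  unfold dg; split_ifs <;> simp

theorem dg_lt {N b : ℕ} (hb : 0 < b) (w : Fin N → Fin b) (i : ℕ) : dg w i < b := by
  unfold dg; split_ifs
  · exact_mod_cast (w _).2
  · exact_mod_cast hb

/-- agreement outside of the window `[s, s + x)` -/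
def Off {N b : ℕ} (s x : ℕ) (w w' : Fin N → Fin b) : Prop :=
  ∀ i : Fin N, ¬ (s ≤ (i : ℕ) ∧ (i : ℕ) < s + x) → w i = w' i

theorem Off.dg_eq {N b s x : ℕ} {w w' : Fin N → Fin b} (h : Off s x w w') {i : ℕ}
    (hi : i < s ∨ s + x ≤ i) : dg w i = dg w' i := by
  unfold dg
  split_ifs with hN
  · rw [h ⟨i, hN⟩ (by simp only; omega)]
  · rfl

/-- difference of two words that differ only in a window -/
theorem window_diff {N b s x : ℕ} (hb : 2 ≤ b) {w w' : Fin N → Fin b} (h : Off s x w w') (hne : w ≠ w')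
    (hsx : s + x ≤ N) : ∃ j : ℤ, j ≠ 0 ∧ |j| < b ^ x ∧
      hor b (dg w) N - hor b (dg w') N = b ^ (N - (s + x)) * j := by
  have h0 : hor b (dg w) s - hor b (dg w') s = 0 := by
    rw [hor_congr (fun i hi => h.dg_eq (Or.inl hi)), sub_self]
  have hbd : ∀ n, |hor b (dg w) (s + n) - hor b (dg w') (s + n)| < b ^ n := by
    intro n
    induction n with
    | zero => simp [h0]
    | succ n ih =>
      show |(b : ℤ) * hor b (dg w) (s + n) + dg w (s + n) - (b * hor b (dg w') (s + n) + dg w' (s + n))| < _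
      have h1 := dg_nonneg w (s + n)
      have h2 := dg_nonneg w' (s + n)
      have h3 := dg_lt (by omega) w (s + n)
      have h4 := dg_lt (by omega) w' (s + n)
      have h5 := abs_lt.1 ih
      have hb0 : (0 : ℤ) ≤ b := by positivity
      rw [abs_lt, pow_succ]
      constructor
      · nlinarith [Int.add_one_le_iff.2 h5.1]
      · nlinarith [Int.add_one_le_iff.2 h5.2]
  have hnz : ∀ n, (∃ i < n, dg w (s + i) ≠ dg w' (s + i)) →
      hor b (dg w) (s + n) - hor b (dg w') (s + n) ≠ 0 := by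
    intro n
    induction n with
    | zero => rintro ⟨i, hi, _⟩; omega
    | succ n ih =>
      rintro ⟨i, hi, hd⟩
      show (b : ℤ) * hor b (dg w) (s + n) + dg w (s + n) - (b * hor b (dg w') (s + n) + dg w' (s + n)) ≠ 0
      have h1 := dg_nonneg w (s + n)
      have h2 := dg_nonneg w' (s + n)
      have h3 := dg_lt (by omega) w (s + n)
      have h4 := dg_lt (by omega) w' (s + n)
      have hb0 : (2 : ℤ) ≤ b := by exact_mod_cast hb
      by_cases hex : ∃ i < n, dg w (s + i) ≠ dg w' (s + i)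
      · have h5 := ih hex
        intro h6
        rcases lt_or_gt_of_ne h5 with h7 | h7
        · have : hor b (dg w) (s + n) - hor b (dg w') (s + n) ≤ -1 := by omega
          nlinarith
        · have : 1 ≤ hor b (dg w) (s + n) - hor b (dg w') (s + n) := by omega
          nlinarith
      · push Not at hex
        have hin : i = n := by
          by_contra hcon
          exact hd (hex i (by omega))
        subst hin
        have h5 : hor b (dg w) (s + i) - hor b (dg w') (s + i) = 0 := by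
          have := hor_add (b := b) (d := dg w) (d' := dg w') (q := s) (n := i) (by
            intro r hr1 hr2
            have := hex (r - s) (by omega)
            rwa [show s + (r - s) = r by omega] at this)
          rw [this, h0, mul_zero]
        intro h6
        apply hd
        have h7 : hor b (dg w) (s + i) = hor b (dg w') (s + i) := by omega
        rw [h7] at h6
        omega
  refine ⟨hor b (dg w) (s + x) - hor b (dg w') (s + x), ?_, hbd x, ?_⟩
  · apply hnz
    by_contra hcon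
    push Not at hcon
    apply hne
    funext i
    by_cases hi : s ≤ (i : ℕ) ∧ (i : ℕ) < s + x
    · have := hcon ((i : ℕ) - s) (by omega)
      rw [show s + ((i : ℕ) - s) = i by omega] at this
      unfold dg at this
      rw [dif_pos i.2, dif_pos i.2] at this
      exact Fin.ext (by exact_mod_cast this)
    · exact h i hi
  · have := hor_add (b := b) (d := dg w) (d' := dg w') (q := s + x) (n := N - (s + x)) (by
      intro r hr1 _
      exact h.dg_eq (Or.inr hr1))
    rwa [show s + x + (N - (s + x)) = N by omega] at this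

/-- counting a set of words by means of the classes of a window -/
theorem card_window {N b : ℕ} (W : Finset (Fin N → Fin b)) {s x c : ℕ} (hsx : s + x ≤ N)
    (h : ∀ V : Finset (Fin N → Fin b), V ⊆ W → (∀ w ∈ V, ∀ w' ∈ V, Off s x w w') → V.card ≤ c) :
    W.card ≤ c * b ^ (N - x) := by
  classical
  set φ : (Fin N → Fin b) → ({i : Fin N // ¬ (s ≤ (i : ℕ) ∧ (i : ℕ) < s + x)} → Fin b) :=
    fun w i => w i.1 with hφ
  have h1 := Finset.card_le_mul_card_image (f := φ) W c (by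
    intro a _
    apply h _ (Finset.filter_subset _ _)
    intro w hw w' hw' i hi
    have e1 := (Finset.mem_filter.1 hw).2
    have e2 := (Finset.mem_filter.1 hw').2
    have := congrFun (e1.trans e2.symm) ⟨i, hi⟩
    exact this)
  refine h1.trans (Nat.mul_le_mul_left _ ?_)
  refine (Finset.card_le_univ _).trans ?_
  rw [Fintype.card_fun, Fintype.card_fin]
  have h2 : Fintype.card {i : Fin N // ¬ (s ≤ (i : ℕ) ∧ (i : ℕ) < s + x)} = N - x := by
    rw [Fintype.card_subtype_compl, Fintype.card_fin]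
    congr 1
    rw [Fintype.card_subtype]
    have h3 : (Finset.univ.filter (fun i : Fin N => s ≤ (i : ℕ) ∧ (i : ℕ) < s + x)) =
        (Finset.univ : Finset (Fin x)).map ⟨fun i : Fin x => (⟨s + i.1, by have := i.2; omega⟩ : Fin N), by
          intro i j hij
          have := congrArg Fin.val hij
          simp only at this
          exact Fin.ext (by omega)⟩ := by
      ext i
      simp only [Finset.mem_filter, Finset.mem_univ, true_and, Finset.mem_map,
        Function.Embedding.coeFn_mk]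
      constructor
      · rintro ⟨h4, h5⟩
        exact ⟨⟨i.1 - s, by omega⟩, Fin.ext (by simp only; omega)⟩
      · rintro ⟨j, rfl⟩
        have := j.2
        simp only
        omega
    rw [h3, Finset.card_map, Finset.card_univ, Fintype.card_fin]
  rw [h2]

/-- the Diophantine property of `α` -/
def Dio (b : ℕ) (α : ℝ) (d C : ℕ) : Prop :=
  ∀ (N : ℤ) (Q j : ℕ) (e : ℕ), 0 < Q → Q ≤ b ^ e → |α - N / Q| * b ^ j ≤ 1 → j ≤ d * e + C

/-- value of the word -/
noncomputable def val {N : ℕ} (b : ℕ) (w : Fin N → Fin b) : ℝ := (hor b (dg w) N : ℝ) / (b : ℝ) ^ N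

theorem val_diff {N b s x : ℕ} (hb : 2 ≤ b) {w w' : Fin N → Fin b} (h : Off s x w w') (hne : w ≠ w')
    (hsx : s + x ≤ N) : ∃ j : ℤ, j ≠ 0 ∧ |j| < b ^ x ∧
      (val b w - val b w') * (b : ℝ) ^ (s + x) = j := by
  obtain ⟨j, hj, hj', h1⟩ := window_diff hb h hne hsx
  refine ⟨j, hj, hj', ?_⟩
  have hb0 : (b : ℝ) ≠ 0 := by positivity
  have h2 : (hor b (dg w) N : ℝ) - hor b (dg w') N = (b : ℝ) ^ (N - (s + x)) * j := by
    exact_mod_cast h1
  unfold val
  rw [← sub_div, h2]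
  have h3 : (b : ℝ) ^ N = (b : ℝ) ^ (N - (s + x)) * (b : ℝ) ^ (s + x) := by
    rw [← pow_add]; congr 1; omega
  rw [h3]
  field_simp

/-- two words that differ in a window and have the same late digits of `α` times them -/
theorem pair_dioph {N b s x : ℕ} (hb : 2 ≤ b) {α : ℝ} {d C₂ : ℕ} (hL : Dio b α d C₂) {E : ℝ} {C₁ : ℕ}
    (hC₁ : 2 * E ≤ (b : ℝ) ^ C₁) {w w' : Fin N → Fin b} (h : Off s x w w') (hne : w ≠ w')
    (hsx : s + x ≤ N) {q n y : ℕ} (hq : q ≤ s + x + y) {e e' : ℕ → ℤ}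
    (hee : ∀ i, q ≤ i → i < n → e i = e' i)
    (h1 : |α * val b w - hor b e n / (b : ℝ) ^ n| ≤ E / (b : ℝ) ^ n)
    (h2 : |α * val b w' - hor b e' n / (b : ℝ) ^ n| ≤ E / (b : ℝ) ^ n) :
    n ≤ s + x + y + d * (x + y) + C₁ + C₂ := by
  by_contra hcon
  push Not at hcon
  obtain ⟨j, hj, hj', h3⟩ := val_diff hb h hne hsx
  have hb1 : (1 : ℝ) ≤ b := by exact_mod_cast (by omega : 1 ≤ b)
  have hb0 : (0 : ℝ) < b := by linarith
  set p := s + x with hp
  set q₁ := max q p with hq₁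
  have hq₁n : q₁ ≤ p + y := max_le hq (by omega)
  have hqq : q ≤ q₁ := le_max_left _ _
  have hpq : p ≤ q₁ := le_max_right _ _
  -- integer part
  set I : ℤ := hor b e q - hor b e' q with hI
  have h4 : (hor b e n : ℝ) - hor b e' n = (b : ℝ) ^ (n - q) * I := by
    have := hor_add (b := b) (d := e) (d' := e') (q := q) (n := n - q) (by
      intro i hi1 hi2
      exact hee i hi1 (by omega))
    rw [show q + (n - q) = n by omega] at this
    exact_mod_cast this
  have h5 : |α * (val b w - val b w') - ((b : ℝ) ^ (n - q) * I) / (b : ℝ) ^ n| ≤ 2 * E / (b : ℝ) ^ n := by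
    have e1 : α * (val b w - val b w') - ((b : ℝ) ^ (n - q) * I) / (b : ℝ) ^ n =
        (α * val b w - hor b e n / (b : ℝ) ^ n) - (α * val b w' - hor b e' n / (b : ℝ) ^ n) := by
      rw [← h4]; ring
    rw [e1]
    calc _ ≤ |α * val b w - hor b e n / (b : ℝ) ^ n| + |α * val b w' - hor b e' n / (b : ℝ) ^ n| :=
          abs_sub _ _
      _ ≤ E / (b : ℝ) ^ n + E / (b : ℝ) ^ n := add_le_add h1 h2
      _ = _ := by ring
  -- multiply by `b ^ q₁`
  have h6 : |α * (j * (b : ℝ) ^ (q₁ - p)) - (b : ℝ) ^ (q₁ - q) * I| ≤ 2 * E / (b : ℝ) ^ (n - q₁) := by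
    have e1 : α * (j * (b : ℝ) ^ (q₁ - p)) - (b : ℝ) ^ (q₁ - q) * I =
        (α * (val b w - val b w') - ((b : ℝ) ^ (n - q) * I) / (b : ℝ) ^ n) * (b : ℝ) ^ q₁ := by
      have f1 : (b : ℝ) ^ q₁ = (b : ℝ) ^ p * (b : ℝ) ^ (q₁ - p) := by
        rw [← pow_add]; congr 1; omega
      have f2 : (b : ℝ) ^ n = (b : ℝ) ^ (n - q) * (b : ℝ) ^ q := by rw [← pow_add]; congr 1; omega
      have f3 : (b : ℝ) ^ q₁ = (b : ℝ) ^ (q₁ - q) * (b : ℝ) ^ q := by rw [← pow_add]; congr 1; omega
      have f4 : ((b : ℝ) ^ (n - q) * I) / (b : ℝ) ^ n * (b : ℝ) ^ q₁ = (b : ℝ) ^ (q₁ - q) * I := by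
        rw [f2, f3]; field_simp
      rw [sub_mul, f4, f1, ← h3]; ring
    rw [e1, abs_mul, abs_of_pos (show (0 : ℝ) < (b : ℝ) ^ q₁ by positivity)]
    have f5 : (b : ℝ) ^ n = (b : ℝ) ^ (n - q₁) * (b : ℝ) ^ q₁ := by rw [← pow_add]; congr 1; omega
    calc _ ≤ 2 * E / (b : ℝ) ^ n * (b : ℝ) ^ q₁ := mul_le_mul_of_nonneg_right h5 (by positivity)
      _ = _ := by rw [f5]; field_simp
  -- the rational number
  obtain ⟨Q, hQ⟩ : ∃ Q : ℕ, Q = j.natAbs * b ^ (q₁ - p) := ⟨_, rfl⟩
  have hj1 : 1 ≤ j.natAbs := Int.natAbs_pos.2 hj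
  have hQ0 : 0 < Q := by rw [hQ]; positivity
  have hQle : Q ≤ b ^ (x + y) := by
    have f1 : j.natAbs < b ^ x := by
      have : (j.natAbs : ℤ) < b ^ x := by rw [Int.natCast_natAbs]; exact hj'
      exact_mod_cast this
    rw [hQ]
    calc j.natAbs * b ^ (q₁ - p) ≤ b ^ x * b ^ y :=
          Nat.mul_le_mul f1.le (Nat.pow_le_pow_right (by omega) (by omega))
      _ = _ := by rw [← pow_add]
  have hQR : (Q : ℝ) = |(j : ℝ)| * (b : ℝ) ^ (q₁ - p) := by
    rw [hQ]; push_cast; rw [Nat.cast_natAbs]; push_cast; rfl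
  have h7 : ∃ I' : ℤ, |α * Q - I'| ≤ 2 * E / (b : ℝ) ^ (n - q₁) := by
    rcases le_total 0 j with hj0 | hj0
    · refine ⟨b ^ (q₁ - q) * I, ?_⟩
      have hj0R : (0 : ℝ) ≤ (j : ℝ) := by exact_mod_cast hj0
      rw [hQR, abs_of_nonneg hj0R]
      push_cast
      exact h6
    · refine ⟨-(b ^ (q₁ - q) * I), ?_⟩
      have hj0R : (j : ℝ) ≤ 0 := by exact_mod_cast hj0
      rw [hQR, abs_of_nonpos hj0R]
      push_cast
      have f1 : α * (-(j : ℝ) * (b : ℝ) ^ (q₁ - p)) - -((b : ℝ) ^ (q₁ - q) * I) =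
          -(α * (j * (b : ℝ) ^ (q₁ - p)) - (b : ℝ) ^ (q₁ - q) * I) := by ring
      rw [f1, abs_neg]
      exact h6
  obtain ⟨I', h7⟩ := h7
  have hQR1 : (1 : ℝ) ≤ Q := by exact_mod_cast hQ0
  have h8 : |α - I' / Q| * (b : ℝ) ^ (n - q₁ - C₁) ≤ 1 := by
    have f1 : |α - I' / Q| ≤ 2 * E / (b : ℝ) ^ (n - q₁) := by
      have f2 : α - I' / Q = (α * Q - I') / Q := by field_simp
      rw [f2, abs_div, abs_of_pos (show (0 : ℝ) < Q by linarith), div_le_iff₀ (by linarith)]
      have f3 : 0 ≤ 2 * E / (b : ℝ) ^ (n - q₁) := (abs_nonneg _).trans h7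
      nlinarith
    have f4 : (b : ℝ) ^ (n - q₁) = (b : ℝ) ^ C₁ * (b : ℝ) ^ (n - q₁ - C₁) := by
      rw [← pow_add]; congr 1; omega
    calc |α - I' / Q| * (b : ℝ) ^ (n - q₁ - C₁)
        ≤ 2 * E / (b : ℝ) ^ (n - q₁) * (b : ℝ) ^ (n - q₁ - C₁) :=
          mul_le_mul_of_nonneg_right f1 (by positivity)
      _ ≤ (b : ℝ) ^ C₁ / (b : ℝ) ^ (n - q₁) * (b : ℝ) ^ (n - q₁ - C₁) := by gcongr
      _ = 1 := by rw [f4]; field_simp
  have h9 := hL I' Q (n - q₁ - C₁) (x + y) hQ0 hQle h8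
  omega

/-- two words that differ in a window and have the same first digits of `α` times them -/
theorem early_dioph {N b s x : ℕ} (hb : 2 ≤ b) {α : ℝ} (hα : α ≠ 0) {E : ℝ} {C₁ : ℕ}
    (hC₁ : 2 * E ≤ |α| * (b : ℝ) ^ C₁) {w w' : Fin N → Fin b} (h : Off s x w w') (hne : w ≠ w')
    (hsx : s + x ≤ N) {n : ℕ} {e e' : ℕ → ℤ} (hee : ∀ i < n, e i = e' i)
    (h1 : |α * val b w - hor b e n / (b : ℝ) ^ n| ≤ E / (b : ℝ) ^ n)
    (h2 : |α * val b w' - hor b e' n / (b : ℝ) ^ n| ≤ E / (b : ℝ) ^ n) : n ≤ s + x + C₁ := by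
  by_contra hcon
  push Not at hcon
  obtain ⟨j, hj, hj', h3⟩ := val_diff hb h hne hsx
  have hb1 : (1 : ℝ) < b := by exact_mod_cast (by omega : 1 < b)
  have hb0 : (0 : ℝ) < b := by linarith
  rw [hor_congr hee] at h1
  have h5 : |α * (val b w - val b w')| ≤ 2 * E / (b : ℝ) ^ n := by
    have e1 : α * (val b w - val b w') =
        (α * val b w - hor b e' n / (b : ℝ) ^ n) - (α * val b w' - hor b e' n / (b : ℝ) ^ n) := by ring
    rw [e1]
    calc _ ≤ |α * val b w - hor b e' n / (b : ℝ) ^ n| + |α * val b w' - hor b e' n / (b : ℝ) ^ n| :=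
          abs_sub _ _
      _ ≤ E / (b : ℝ) ^ n + E / (b : ℝ) ^ n := add_le_add h1 h2
      _ = _ := by ring
  have h6 : |α| ≤ 2 * E / (b : ℝ) ^ n * (b : ℝ) ^ (s + x) := by
    have f1 : |α| ≤ |α * (val b w - val b w')| * (b : ℝ) ^ (s + x) := by
      have f2 : |α * (val b w - val b w')| * (b : ℝ) ^ (s + x) = |α| * |(j : ℝ)| := by
        rw [← h3, abs_mul, abs_mul, abs_of_pos (show (0 : ℝ) < (b : ℝ) ^ (s + x) by positivity)]
        ring
      rw [f2]
      have f3 : (1 : ℝ) ≤ |(j : ℝ)| := by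
        have : (1 : ℤ) ≤ |j| := Int.one_le_abs hj
        exact_mod_cast this
      nlinarith [abs_nonneg α]
    exact f1.trans (mul_le_mul_of_nonneg_right h5 (by positivity))
  have hα0 : 0 < |α| := abs_pos.2 hα
  have h7 : |α| ≤ |α| * (b : ℝ) ^ C₁ / (b : ℝ) ^ n * (b : ℝ) ^ (s + x) := by
    refine h6.trans ?_
    gcongr
  have h8 : (b : ℝ) ^ n = (b : ℝ) ^ C₁ * (b : ℝ) ^ (s + x) * (b : ℝ) ^ (n - (s + x + C₁)) := by
    rw [← pow_add, ← pow_add]; congr 1; omega
  have h9 : |α| * (b : ℝ) ^ C₁ / (b : ℝ) ^ n * (b : ℝ) ^ (s + x) =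
      |α| / (b : ℝ) ^ (n - (s + x + C₁)) := by
    rw [h8]; field_simp
  rw [h9, le_div_iff₀ (by positivity)] at h7
  have h10 : (1 : ℝ) < (b : ℝ) ^ (n - (s + x + C₁)) := one_lt_pow₀ hb1 (by omega)
  nlinarith

end Pool.Agent.H77.OL
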