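import Pool.Agent.H77.OL.Sys

/-!
The pair lemma: in a class of words that differ only in a window, the words whose run has a small overlap
at this place are few.
-/

namespace Pool.Agent.H77.OL

open Pool.Agent.H77.RT

variable {K : Type} [DecidableEq K] {Γ : K → Type} {Q : Type} {b : ℕ}

/-- at time `t` the first `n` digits on the output stack approximate `α` times the word -/
structure Sys.App (M : Sys K Γ Q b) (α E : ℝ) {N : ℕ} (w : Fin N → Fin b) (t n : ℕ) : Prop where
  len : n ≤ M.h w M.out t
  err : |α * val b w - hor b (digs M.wr (M.S w t M.out)) n / (b : ℝ) ^ n| ≤ E / (b : ℝ) ^ n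

/-- the run succeeds up to the reading of `P'` digits -/
structure Sys.G (M : Sys K Γ Q b) (α E : ℝ) (P' Δ : ℕ) {N : ℕ} (w : Fin N → Fin b) (T : ℕ) : Prop where
  mono : M.Mono w T
  pop : M.h w M.inp T + P' ≤ N
  app : ∀ n, n + Δ ≤ P' → ∃ t ≤ T, N < M.h w M.inp t + (n + Δ) ∧ M.App α E w t n

theorem Sys.App.later {M : Sys K Γ Q b} {α E : ℝ} {N : ℕ} {w : Fin N → Fin b} {t n T t' : ℕ}
    (h : M.App α E w t n) (hM : M.Mono w T) (h1 : t ≤ t') (h2 : t' ≤ T) : M.App α E w t' n := by
  refine ⟨h.len.trans (hM.mono h1 h2), ?_⟩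
  have e1 : hor b (digs M.wr (M.S w t' M.out)) n = hor b (digs M.wr (M.S w t M.out)) n := by
    apply hor_congr
    intro i hi
    exact (digs_suffix M.wr (hM.hout t t' h1 h2) (lt_of_lt_of_le hi h.len)).symm
  rw [e1]; exact h.err

theorem Sys.G.app_τ {M : Sys K Γ Q b} {α E : ℝ} {N P' Δ : ℕ} {w : Fin N → Fin b} {T : ℕ}
    (h : M.G α E P' Δ w T) {j n : ℕ} (hj : j ≤ P') (hn : n + Δ ≤ j) :
    M.App α E w (M.τ w j) n := by
  obtain ⟨t, htT, ht, hA⟩ := h.app n (hn.trans hj)
  have hpop := h.pop
  have hspec : M.h w M.inp (M.τ w j) + j ≤ N := M.τ_spec (t := T) (by omega)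
  have hle : M.τ w j ≤ T := M.τ_le (by omega)
  rcases le_total t (M.τ w j) with h1 | h1
  · exact hA.later h.mono h1 hle
  · have := h.mono.anti h1 htT
    omega

variable (M : Sys K Γ Q b) {N : ℕ}

theorem pair_inj {α E : ℝ} (hb : 2 ≤ b) {d C₁ C₂ : ℕ} (hL : Dio b α d C₂)
    (hC₁ : 2 * E ≤ (b : ℝ) ^ C₁) {P' Δ a m x y : ℕ} {w w' : Fin N → Fin b} {T T' : ℕ}
    (hG : M.G α E P' Δ w T) (hG' : M.G α E P' Δ w' T') (hoff : Off (a + m - x) x w w')
    (hx : M.D + x ≤ m) (hP : a + 2 * m ≤ P')
    (hearly : M.h w M.out (M.τ w (a + m)) ≤ a + m + y)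
    (hm : Δ + y + d * (x + y) + C₁ + C₂ < m)
    (cq : M.q w (M.τ w (a + m)) = M.q w' (M.τ w' (a + m)))
    (ch : ∀ k, M.h w k (M.τ w (a + m)) = M.h w' k (M.τ w' (a + m)))
    (cl : ∀ k, mn (M.h w k) (M.τ w a) (M.τ w (a + m)) = mn (M.h w' k) (M.τ w' a) (M.τ w' (a + m)))
    (cr : ∀ k, mn (M.h w k) (M.τ w (a + m)) (M.τ w (a + 2 * m)) =
      mn (M.h w' k) (M.τ w' (a + m)) (M.τ w' (a + 2 * m)))
    (ct : ∀ k, (M.S w (M.τ w (a + m)) k).take
        (ovl (M.h w k) (M.τ w a) (M.τ w (a + m)) (M.τ w (a + 2 * m)) + M.D) =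
      (M.S w' (M.τ w' (a + m)) k).take
        (ovl (M.h w' k) (M.τ w' a) (M.τ w' (a + m)) (M.τ w' (a + 2 * m)) + M.D)) :
    w = w' := by
  by_contra hne
  have hpop := hG.pop
  have hpop' := hG'.pop
  have s1 : M.h w M.inp (M.τ w a) + a ≤ N := M.τ_spec (t := T) (by omega)
  have s2 : M.h w M.inp (M.τ w (a + m)) + (a + m) ≤ N := M.τ_spec (t := T) (by omega)
  have s3 : M.h w M.inp (M.τ w (a + 2 * m)) + (a + 2 * m) ≤ N := M.τ_spec (t := T) (by omega)
  have s1' : M.h w' M.inp (M.τ w' a) + a ≤ N := M.τ_spec (t := T') (by omega)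
  have s2' : M.h w' M.inp (M.τ w' (a + m)) + (a + m) ≤ N := M.τ_spec (t := T') (by omega)
  have s3' : M.h w' M.inp (M.τ w' (a + 2 * m)) + (a + 2 * m) ≤ N := M.τ_spec (t := T') (by omega)
  have l12 : M.τ w a ≤ M.τ w (a + m) := M.τ_mono (t := T) (by omega) (by omega)
  have l23 : M.τ w (a + m) ≤ M.τ w (a + 2 * m) := M.τ_mono (t := T) (by omega) (by omega)
  have l12' : M.τ w' a ≤ M.τ w' (a + m) := M.τ_mono (t := T') (by omega) (by omega)
  have l3 : M.τ w (a + 2 * m) ≤ T := M.τ_le (by omega)
  have l3' : M.τ w' (a + 2 * m) ≤ T' := M.τ_le (by omega)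
  have l23' : M.τ w' (a + m) ≤ M.τ w' (a + 2 * m) := M.τ_mono (t := T') (by omega) (by omega)
  -- the first part
  have hcom : ∀ i : Fin N, (i : ℕ) < a + M.D → w i = w' i := by
    intro i hi
    exact hoff i (by omega)
  have hag := M.agree (w := w) (w' := w') (p := a + M.D) (t := M.τ w a) (by omega) hcom (by
    intro s hs
    have := M.lt_τ hs
    omega)
  have hτ1 : M.τ w' a = M.τ w a := by
    apply le_antisymm
    · apply M.τ_le
      rw [← hag.2.2]
      exact s1
    · by_contra hcon
      push Not at hcon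
      have h1 := M.agree (w := w) (w' := w') (p := a + M.D) (t := M.τ w' a) (by omega) hcom (by
        intro s hs
        have := M.lt_τ (hs.trans hcon)
        omega)
      have h2 := M.lt_τ hcon
      rw [h1.2.2] at h2
      omega
  generalize ht1' : M.τ w' a = t₁' at *
  generalize ht1 : M.τ w a = t₁ at *
  generalize ht2 : M.τ w (a + m) = t₂ at *
  generalize ht2' : M.τ w' (a + m) = t₂' at *
  generalize ht3 : M.τ w (a + 2 * m) = t₃ at *
  generalize ht3' : M.τ w' (a + 2 * m) = t₃' at *
  subst hτ1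
  obtain ⟨n, hn⟩ : ∃ n, t₃ = t₂ + n := ⟨t₃ - t₂, by omega⟩
  -- synchronisation
  set E' : K → Prop := fun k => k = M.inp ∨
      mn (M.h w k) t₂ t₃ ≤ mn (M.h w k) t₁' t₂ ∨ M.h w k t₂ ≤ ovl (M.h w k) t₁' t₂ t₃ + M.D with hE'
  have covl : ∀ k, ovl (M.h w k) t₁' t₂ t₃ = ovl (M.h w' k) t₁' t₂' t₃' := by
    intro k; unfold ovl; rw [ch k, cl k, cr k]
  have eqE : ∀ k, E' k → M.S w t₂ k = M.S w' t₂' k := by
    intro k hk
    by_cases hki : k = M.inp
    · subst hki
      rw [hG.mono.inp_eq (by omega : t₂ ≤ T), hG'.mono.inp_eq (by omega : t₂' ≤ T'), ← ch M.inp]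
      apply word_drop
      intro i hi
      apply hoff
      have := ch M.inp
      omega
    · rcases hk with hk | hk | hk
      · exact absurd hk hki
      · obtain ⟨A, A', R, r1, r2, r3⟩ := bottom_persist (M.traj w T) (k := k) l12 (by omega)
          (μ := mn (M.h w k) t₁' t₂) (fun r h1 h2 => mn_le (M.h w k) h1 h2)
        obtain ⟨B, B', R', r1', r2', r3'⟩ := bottom_persist (M.traj w' T') (k := k) l12' (by omega)
          (μ := mn (M.h w' k) t₁' t₂') (fun r h1 h2 => mn_le (M.h w' k) h1 h2)
        have hRR : R = R' := by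
          have h1 : A ++ R = B ++ R' := by rw [← r1, ← r1']; exact hag.2.1 k hki
          have h2 : R.length = R'.length := by rw [r3, r3', cl k]
          exact (List.append_inj' h1 h2).2
        have hAl : A'.length ≤ ovl (M.h w k) t₁' t₂ t₃ + M.D := by
          have h1 : M.h w k t₂ = A'.length + R.length := by unfold Sys.h; rw [r2, List.length_append]
          have h2 := mn_le (M.h w k) l12 le_rfl
          unfold ovl
          rw [max_eq_left hk]
          omega
        have hAl' : B'.length = A'.length := by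
          have h1 : M.h w k t₂ = A'.length + R.length := by unfold Sys.h; rw [r2, List.length_append]
          have h2 : M.h w' k t₂' = B'.length + R'.length := by
            unfold Sys.h; rw [r2', List.length_append]
          have := ch k
          rw [r3, cl k] at h1
          rw [r3'] at h2
          omega
        have hct := ct k
        rw [← covl k] at hct
        have hAB : A' = B' := by
          have h1 := congrArg (fun l => l.take A'.length) hct
          simp only [List.take_take, min_eq_left hAl] at h1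
          rw [r2, r2', List.take_left, ← hAl', List.take_left] at h1
          exact h1
        rw [r2, r2', hAB, hRR]
      · have hct := ct k
        rw [← covl k, List.take_of_length_le hk, List.take_of_length_le (by
          have h1 := ch k
          have h2 : M.h w' k t₂' = (M.S w' t₂' k).length := rfl
          omega)] at hct
        exact hct
  have hdrop : ∀ k, ¬ E' k → (M.S w t₂ k).length = ((M.S w t₂ k).take
      (ovl (M.h w k) t₁' t₂ t₃ + M.D)).length + ((M.S w t₂ k).drop
      (ovl (M.h w k) t₁' t₂ t₃ + M.D)).length := by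
    intro k _
    rw [← List.length_append, List.take_append_drop]
  have hsync := sync (M.traj w T) (M.traj w' (t₂' + n)) (m := t₂) (m' := t₂') (n := n) (by omega)
    le_rfl cq E'
    (fun k => (M.S w t₂ k).drop (ovl (M.h w k) t₁' t₂ t₃ + M.D))
    (fun k => (M.S w' t₂' k).drop (ovl (M.h w k) t₁' t₂ t₃ + M.D)) eqE (by
      intro k hk
      refine ⟨⟨(M.S w t₂ k).take (ovl (M.h w k) t₁' t₂ t₃ + M.D), (List.take_append_drop _ _).symm,
        ?_⟩, ?_⟩
      · have hct := ct k
        rw [← covl k] at hct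
        rw [hct, List.take_append_drop]
      · intro r hr
        simp only [hE', not_or, not_le] at hk
        rw [List.length_drop]
        have h1 := mn_le (M.h w k) (s := t₂) (r := t₂ + r) (t := t₃) (by omega) (by omega)
        have h2 : M.h w k t₂ = (M.S w t₂ k).length := rfl
        have h3 : M.h w k (t₂ + r) = (M.S w (t₂ + r) k).length := rfl
        have h4 : ovl (M.h w k) t₁' t₂ t₃ = M.h w k t₂ - mn (M.h w k) t₂ t₃ := by
          unfold ovl; rw [max_eq_right hk.2.1.le]
        have h5 := mn_le (M.h w k) (s := t₂) (r := t₂) (t := t₃) le_rfl (by omega)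
        have h6 := hk.2.2
        omega)
  -- partial synchronisation of the input stack
  have hsyncr : ∀ r ≤ n, M.h w M.inp (t₂ + r) = M.h w' M.inp (t₂' + r) := by
    intro r hr
    have h1 := sync (M.traj w T) (M.traj w' (t₂' + r)) (m := t₂) (m' := t₂') (n := r) (by omega)
      le_rfl cq E'
      (fun k => (M.S w t₂ k).drop (ovl (M.h w k) t₁' t₂ t₃ + M.D))
      (fun k => (M.S w' t₂' k).drop (ovl (M.h w k) t₁' t₂ t₃ + M.D)) eqE (by
        intro k hk
        refine ⟨⟨(M.S w t₂ k).take (ovl (M.h w k) t₁' t₂ t₃ + M.D), (List.take_append_drop _ _).symm,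
          ?_⟩, ?_⟩
        · have hct := ct k
          rw [← covl k] at hct
          rw [hct, List.take_append_drop]
        · intro r hr
          simp only [hE', not_or, not_le] at hk
          rw [List.length_drop]
          have h1 := mn_le (M.h w k) (s := t₂) (r := t₂ + r) (t := t₃) (by omega) (by omega)
          have h2 : M.h w k t₂ = (M.S w t₂ k).length := rfl
          have h3 : M.h w k (t₂ + r) = (M.S w (t₂ + r) k).length := rfl
          have h4 : ovl (M.h w k) t₁' t₂ t₃ = M.h w k t₂ - mn (M.h w k) t₂ t₃ := by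
            unfold ovl; rw [max_eq_right hk.2.1.le]
          have h5 := mn_le (M.h w k) (s := t₂) (r := t₂) (t := t₃) le_rfl (by omega)
          have h6 := hk.2.2
          omega)
    have h2 := h1.2.1 M.inp (Or.inl rfl)
    unfold Sys.h
    rw [h2]
  have ht3eq : t₃' = t₂' + n := by
    apply le_antisymm
    · rw [← ht3']
      apply M.τ_le
      rw [← hsyncr n le_rfl, ← hn]
      exact s3
    · by_contra hcon
      push Not at hcon
      obtain ⟨r, hr⟩ : ∃ r, t₃' = t₂' + r := ⟨t₃' - t₂', by omega⟩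
      have h1 := hsyncr r (by omega)
      have h2 := M.lt_τ (w := w) (j := a + 2 * m) (s := t₂ + r) (by omega)
      rw [h1, ← hr] at h2
      omega
  -- the outputs
  have A1 : M.App α E w t₃ (a + 2 * m - Δ) := by
    rw [← ht3]
    exact hG.app_τ hP (by omega)
  have A2 : M.App α E w' t₃' (a + 2 * m - Δ) := by
    rw [← ht3']
    exact hG'.app_τ hP (by omega)
  have hfin : ∃ q, q ≤ a + m - x + x + y ∧ ∀ i, q ≤ i → i < a + 2 * m - Δ →
      digs M.wr (M.S w t₃ M.out) i = digs M.wr (M.S w' t₃' M.out) i := by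
    by_cases ho : E' M.out
    · refine ⟨0, Nat.zero_le _, fun i _ _ => ?_⟩
      have := hsync.2.1 M.out ho
      rw [← hn, ← ht3eq] at this
      rw [this]
    · obtain ⟨A, hA1, hA2⟩ := hsync.2.2 M.out ho
      rw [← hn] at hA1
      rw [← ht3eq] at hA2
      refine ⟨((M.S w t₂ M.out).drop (ovl (M.h w M.out) t₁' t₂ t₃ + M.D)).length, ?_, ?_⟩
      · rw [List.length_drop]
        have h2 : M.h w M.out t₂ = (M.S w t₂ M.out).length := rfl
        omega
      · intro i hi _
        rw [hA1, hA2]
        apply digs_common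
        · rw [List.length_drop, List.length_drop]
          have := ch M.out
          unfold Sys.h at this
          rw [this]
        · exact hi
  obtain ⟨q, hq, hfin⟩ := hfin
  have hfinal := pair_dioph hb hL hC₁ hoff hne (by omega) hq hfin A1.err A2.err
  omega

end Pool.Agent.H77.OL
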