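import Pool.Agent.H77.OL.Traj
import Pool.Agent.H77.OL.Num

/-!
Local systems reading a word, their runs, reading times.
-/

namespace Pool.Agent.H77.OL

open Pool.Agent.H77.RT

/-- digits written on a stack (bottom first) -/
def digs {A : Type} (wr : A → ℤ) (l : List A) (i : ℕ) : ℤ := ((l.reverse[i]?).map wr).getD 0

theorem digs_suffix {A : Type} (wr : A → ℤ) {l l' : List A} (h : l <:+ l') {i : ℕ} (hi : i < l.length) :
    digs wr l i = digs wr l' i := by
  obtain ⟨u, rfl⟩ := h
  unfold digs
  rw [List.reverse_append, List.getElem?_append_left (by simpa using hi)]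

theorem digs_common {A : Type} (wr : A → ℤ) {l R R' : List A} (h : R.length = R'.length) {i : ℕ}
    (hi : R.length ≤ i) : digs wr (l ++ R) i = digs wr (l ++ R') i := by
  unfold digs
  rw [List.reverse_append, List.reverse_append,
    List.getElem?_append_right (by rw [List.length_reverse]; exact hi),
    List.getElem?_append_right (by rw [List.length_reverse]; omega),
    List.length_reverse, List.length_reverse, h]

/-- a local stack system that reads digits and writes digits -/
structure Sys (K : Type) (Γ : K → Type) (Q : Type) (b : ℕ) where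
  D : ℕ
  P : ℕ
  F : Q → (∀ k, List (Γ k)) → Q × (∀ k, List (Γ k))
  q₀ : Q
  inp : K
  out : K
  ne : out ≠ inp
  rd : Fin b → Γ inp
  wr : Γ out → ℤ
  hP : ∀ q t, (∀ k, (t k).length ≤ D) → ∀ k, ((F q t).2 k).length ≤ (t k).length + P

variable {K : Type} [DecidableEq K] {Γ : K → Type} {Q : Type} {b : ℕ}

/-- one step of the system -/
def Sys.nx (M : Sys K Γ Q b) (c : Q × (∀ k, List (Γ k))) : Q × (∀ k, List (Γ k)) :=
  ((M.F c.1 (tops M.D c.2)).1, fun k => repl M.D ((M.F c.1 (tops M.D c.2)).2 k) (c.2 k))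

/-- the word on the input stack -/
def Sys.word (M : Sys K Γ Q b) {N : ℕ} (w : Fin N → Fin b) : List (Γ M.inp) :=
  List.ofFn (fun i => M.rd (w i))

/-- run on a word -/
def Sys.run (M : Sys K Γ Q b) {N : ℕ} (w : Fin N → Fin b) (t : ℕ) : Q × (∀ k, List (Γ k)) :=
  M.nx^[t] (M.q₀, Function.update (fun _ => []) M.inp (M.word w))

def Sys.q (M : Sys K Γ Q b) {N : ℕ} (w : Fin N → Fin b) (t : ℕ) : Q := (M.run w t).1

def Sys.S (M : Sys K Γ Q b) {N : ℕ} (w : Fin N → Fin b) (t : ℕ) : ∀ k, List (Γ k) := (M.run w t).2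

/-- height -/
def Sys.h (M : Sys K Γ Q b) {N : ℕ} (w : Fin N → Fin b) (k : K) (t : ℕ) : ℕ := (M.S w t k).length

variable (M : Sys K Γ Q b) {N : ℕ}

theorem Sys.traj (w : Fin N → Fin b) (T : ℕ) : Traj M.D M.F (M.q w) (M.S w) T := by
  refine ⟨fun s _ => ?_, fun s _ k => ?_⟩
  · unfold Sys.q Sys.S Sys.run; rw [Function.iterate_succ_apply']; rfl
  · unfold Sys.q Sys.S Sys.run; rw [Function.iterate_succ_apply']; rfl

theorem Sys.S_zero_inp (w : Fin N → Fin b) : M.S w 0 M.inp = M.word w := by
  unfold Sys.S Sys.run; simp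

theorem Sys.S_zero {k : K} (hk : k ≠ M.inp) (w : Fin N → Fin b) : M.S w 0 k = [] := by
  unfold Sys.S Sys.run; simp [Function.update_of_ne hk]

theorem Sys.word_length (w : Fin N → Fin b) : (M.word w).length = N := by simp [Sys.word]

theorem Sys.h_succ (w : Fin N → Fin b) (k : K) (t : ℕ) : M.h w k (t + 1) ≤ M.h w k t + M.P := by
  unfold Sys.h
  rw [(M.traj w (t + 1)).hS t (Nat.lt_succ_self t) k]
  unfold repl
  rw [List.length_append, List.length_drop]
  have h1 := M.hP (M.q w t) (tops M.D (M.S w t)) (fun k => tops_length _ _ _) k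
  have h2 : (tops M.D (M.S w t) k).length = min M.D (M.S w t k).length := by simp [tops]
  omega

theorem Sys.h_drop (w : Fin N → Fin b) (k : K) (t : ℕ) : M.h w k t ≤ M.h w k (t + 1) + M.D := by
  unfold Sys.h
  rw [(M.traj w (t + 1)).hS t (Nat.lt_succ_self t) k]
  unfold repl
  rw [List.length_append, List.length_drop]
  omega

theorem Sys.h_le (w : Fin N → Fin b) (k : K) (t : ℕ) : M.h w k t ≤ N + M.P * t := by
  induction t with
  | zero =>
    unfold Sys.h
    by_cases hk : k = M.inp
    · subst hk; rw [M.S_zero_inp, M.word_length]; simp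
    · rw [M.S_zero hk]; simp
  | succ t ih =>
    have := M.h_succ w k t
    rw [Nat.mul_succ]; omega

/-- on `[0, T]` the input stack is only popped and the output stack is only pushed -/
structure Sys.Mono (w : Fin N → Fin b) (T : ℕ) : Prop where
  hin : ∀ s t, s ≤ t → t ≤ T → M.S w t M.inp <:+ M.S w s M.inp
  hout : ∀ s t, s ≤ t → t ≤ T → M.S w s M.out <:+ M.S w t M.out

theorem Sys.Mono.le {M : Sys K Γ Q b} {w : Fin N → Fin b} {T T' : ℕ} (h : M.Mono w T) (hT : T' ≤ T) :
    M.Mono w T' :=
  ⟨fun s t h1 h2 => h.hin s t h1 (h2.trans hT), fun s t h1 h2 => h.hout s t h1 (h2.trans hT)⟩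

theorem Sys.Mono.anti {M : Sys K Γ Q b} {w : Fin N → Fin b} {T : ℕ} (h : M.Mono w T) {s t : ℕ}
    (hst : s ≤ t) (ht : t ≤ T) : M.h w M.inp t ≤ M.h w M.inp s := (h.hin s t hst ht).length_le

theorem Sys.Mono.mono {M : Sys K Γ Q b} {w : Fin N → Fin b} {T : ℕ} (h : M.Mono w T) {s t : ℕ}
    (hst : s ≤ t) (ht : t ≤ T) : M.h w M.out s ≤ M.h w M.out t := (h.hout s t hst ht).length_le

theorem Sys.Mono.inp_eq {M : Sys K Γ Q b} {w : Fin N → Fin b} {T : ℕ} (h : M.Mono w T) {t : ℕ}
    (ht : t ≤ T) : M.S w t M.inp = (M.word w).drop (N - M.h w M.inp t) := by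
  have h1 := h.hin 0 t (Nat.zero_le _) ht
  rw [M.S_zero_inp] at h1
  obtain ⟨u, hu⟩ := h1
  have h2 : u.length = N - M.h w M.inp t := by
    have := congrArg List.length hu
    rw [List.length_append, M.word_length] at this
    unfold Sys.h; omega
  rw [← h2, ← hu, List.drop_left]

theorem Sys.Mono.le_N {M : Sys K Γ Q b} {w : Fin N → Fin b} {T : ℕ} (h : M.Mono w T) {t : ℕ}
    (ht : t ≤ T) : M.h w M.inp t ≤ N := by
  have := h.anti (Nat.zero_le t) ht
  have h0 : M.h w M.inp 0 = N := by unfold Sys.h; rw [M.S_zero_inp, M.word_length]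
  omega

theorem word_drop {w w' : Fin N → Fin b} {p : ℕ} (h : ∀ i : Fin N, p ≤ (i : ℕ) → w i = w' i) :
    (M.word w).drop p = (M.word w').drop p := by
  apply List.ext_getElem
  · rw [List.length_drop, List.length_drop, M.word_length, M.word_length]
  · intro i h1 h2
    rw [List.length_drop, M.word_length] at h1
    rw [List.getElem_drop, List.getElem_drop]
    unfold Sys.word
    rw [List.getElem_ofFn, List.getElem_ofFn, h _ (by simp)]

theorem word_take {w w' : Fin N → Fin b} {p : ℕ} (h : ∀ i : Fin N, (i : ℕ) < p → w i = w' i) :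
    (M.word w).take p = (M.word w').take p := by
  apply List.ext_getElem
  · rw [List.length_take, List.length_take, M.word_length, M.word_length]
  · intro i h1 h2
    rw [List.length_take, M.word_length] at h1
    rw [List.getElem_take, List.getElem_take]
    unfold Sys.word
    rw [List.getElem_ofFn, List.getElem_ofFn, h _ (by simp only; omega)]

/-- runs on words with a common beginning agree as long as only this beginning is visible -/
theorem Sys.agree {w w' : Fin N → Fin b} {p t : ℕ} (hp : p ≤ N)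
    (h : ∀ i : Fin N, (i : ℕ) < p → w i = w' i)
    (hvis : ∀ s < t, N + M.D ≤ M.h w M.inp s + p) :
    M.q w t = M.q w' t ∧ (∀ k, k ≠ M.inp → M.S w t k = M.S w' t k) ∧
      M.h w M.inp t = M.h w' M.inp t := by
  classical
  have h1 := sync (M.traj w t) (M.traj w' t) (m := 0) (m' := 0) (n := t) (by omega) (by omega) rfl
    (fun k => k ≠ M.inp) (fun k => if hk : k = M.inp then hk ▸ (M.word w).drop p else [])
    (fun k => if hk : k = M.inp then hk ▸ (M.word w').drop p else [])
    (fun k hk => by rw [M.S_zero hk, M.S_zero hk]) (by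
      intro k hk
      rw [not_not] at hk
      subst hk
      simp only [dif_pos]
      refine ⟨⟨(M.word w).take p, ?_, ?_⟩, ?_⟩
      · rw [M.S_zero_inp, List.take_append_drop]
      · rw [M.S_zero_inp, word_take M h, List.take_append_drop]
      · intro r hr
        rw [List.length_drop, M.word_length, zero_add]
        have := hvis r hr
        unfold Sys.h at this
        omega)
  simp only [zero_add] at h1
  refine ⟨h1.1, h1.2.1, ?_⟩
  obtain ⟨A, hA, hA'⟩ := h1.2.2 M.inp (by simp)
  simp only [dif_pos] at hA hA'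
  unfold Sys.h
  rw [hA, hA', List.length_append, List.length_append, List.length_drop, List.length_drop,
    M.word_length, M.word_length]

/-- time at which `j` digits have been read -/
noncomputable def Sys.τ (w : Fin N → Fin b) (j : ℕ) : ℕ := sInf {t | M.h w M.inp t + j ≤ N}

theorem Sys.τ_le {w : Fin N → Fin b} {j t : ℕ} (h : M.h w M.inp t + j ≤ N) : M.τ w j ≤ t :=
  Nat.sInf_le h

theorem Sys.τ_spec {w : Fin N → Fin b} {j t : ℕ} (h : M.h w M.inp t + j ≤ N) :
    M.h w M.inp (M.τ w j) + j ≤ N := Nat.sInf_mem (s := {t | M.h w M.inp t + j ≤ N}) ⟨t, h⟩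

theorem Sys.lt_τ {w : Fin N → Fin b} {j s : ℕ} (h : s < M.τ w j) : N < M.h w M.inp s + j := by
  by_contra hcon
  push Not at hcon
  exact absurd (M.τ_le hcon) (by omega)

theorem Sys.τ_mono {w : Fin N → Fin b} {j j' t : ℕ} (hj : j ≤ j') (h : M.h w M.inp t + j' ≤ N) :
    M.τ w j ≤ M.τ w j' := M.τ_le (by have := M.τ_spec h; omega)

theorem Sys.τ_upper {w : Fin N → Fin b} (j : ℕ) : N ≤ M.h w M.inp (M.τ w j) + j + M.D := by
  rcases Nat.eq_zero_or_pos (M.τ w j) with h0 | h0
  · rw [h0]
    have : M.h w M.inp 0 = N := by unfold Sys.h; rw [M.S_zero_inp, M.word_length]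
    omega
  · have h1 := M.lt_τ (w := w) (j := j) (s := M.τ w j - 1) (by omega)
    have h2 := M.h_drop w M.inp (M.τ w j - 1)
    rw [Nat.sub_add_cancel h0] at h2
    omega

end Pool.Agent.H77.OL
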