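import Pool.Agent.H77.OL.Core

/-!
From stack machines (Mathlib's TM2) to local systems.
-/

namespace Pool.Agent.H77.OL

open Pool.Agent.H77.RT Turing

section tm

variable {K : Type} [DecidableEq K] {Γ : K → Type} {Λ : Type} {σ : Type}

/-- configuration after `t` steps from the stacks `S₀` -/
def cfg (M : Λ → TM2.Stmt Γ Λ σ) (l₀ : Λ) (v₀ : σ) (S₀ : ∀ k, List (Γ k)) (t : ℕ) :
    Option (TM2.Cfg Γ Λ σ) :=
  (fun o : Option (Turing.TM2.Cfg Γ Λ σ) => o.bind (Turing.TM2.step (M := M)))^[t]
    (some ⟨some l₀, v₀, S₀⟩)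

variable (M : Λ → TM2.Stmt Γ Λ σ) (l₀ : Λ) (v₀ : σ)

theorem cfg_zero (S₀ : ∀ k, List (Γ k)) : cfg M l₀ v₀ S₀ 0 = some ⟨some l₀, v₀, S₀⟩ := rfl

theorem cfg_succ (S₀ : ∀ k, List (Γ k)) (t : ℕ) :
    cfg M l₀ v₀ S₀ (t + 1) = (cfg M l₀ v₀ S₀ t).bind (TM2.step M) := by
  unfold cfg; rw [Function.iterate_succ_apply']

theorem cfg_some_of_le {S₀ : ∀ k, List (Γ k)} {t t' : ℕ} (h : t ≤ t') {C : TM2.Cfg Γ Λ σ}
    (hC : cfg M l₀ v₀ S₀ t' = some C) : ∃ C', cfg M l₀ v₀ S₀ t = some C' := by
  induction h generalizing C with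
  | refl => exact ⟨C, hC⟩
  | @step m _ ih =>
    rw [Nat.succ_eq_add_one, cfg_succ] at hC
    rcases h1 : cfg M l₀ v₀ S₀ m with _ | C1
    · rw [h1] at hC; simp at hC
    · exact ih h1

/-- the local transition function -/
def tmF (q : Option Λ × σ) (tp : ∀ k, List (Γ k)) : (Option Λ × σ) × (∀ k, List (Γ k)) :=
  match q.1 with
  | some l => (((TM2.stepAux (M l) q.2 tp).l, (TM2.stepAux (M l) q.2 tp).var),
      (TM2.stepAux (M l) q.2 tp).stk)
  | none => (q, tp)

/-- the local system of a machine -/
def toSys [Fintype Λ] {b : ℕ} (inp out : K) (ne : out ≠ inp) (rd : Fin b → Γ inp) (wr : Γ out → ℤ) :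
    Sys K Γ (Option Λ × σ) b where
  D := Finset.univ.sup (fun l => dep (M l))
  P := Finset.univ.sup (fun l => pus (M l))
  F := tmF M
  q₀ := (some l₀, v₀)
  inp := inp
  out := out
  ne := ne
  rd := rd
  wr := wr
  hP := by
    intro q t _ k
    unfold tmF
    rcases q with ⟨_ | l, v⟩
    · exact Nat.le_add_right _ _
    · exact (stepAux_length (M l) v t k).trans (Nat.add_le_add_left
        (Finset.le_sup (f := fun l => pus (M l)) (Finset.mem_univ l)) _)

theorem toSys_run [Fintype Λ] {b : ℕ} (inp out : K) (ne : out ≠ inp) (rd : Fin b → Γ inp) (wr : Γ out → ℤ)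
    {N : ℕ} (w : Fin N → Fin b) (t : ℕ) : ∀ C : TM2.Cfg Γ Λ σ,
    cfg M l₀ v₀ (Function.update (fun _ => []) inp ((List.ofFn w).map rd)) t = some C →
    (toSys M l₀ v₀ inp out ne rd wr).q w t = (C.l, C.var) ∧
      (toSys M l₀ v₀ inp out ne rd wr).S w t = C.stk := by
  induction t with
  | zero =>
    intro C hC
    rw [cfg_zero] at hC
    rw [← Option.some.inj hC]
    refine ⟨rfl, ?_⟩
    show Function.update (fun _ => []) inp (List.ofFn (fun i => rd (w i))) = _
    simp only [List.map_ofFn]
    rfl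
  | succ t ih =>
    intro C hC
    rw [cfg_succ] at hC
    rcases h1 : cfg M l₀ v₀ (Function.update (fun _ => []) inp ((List.ofFn w).map rd)) t with _ | C1
    · rw [h1] at hC; simp at hC
    · obtain ⟨i1, i2⟩ := ih C1 h1
      rw [h1, Option.bind_some] at hC
      obtain ⟨l, v, S⟩ := C1
      cases l with
      | none => simp at hC
      | some l =>
        rw [TM2.step] at hC
        have h2 := Option.some.inj hC
        rw [← h2]
        simp only at i1 i2
        have tr := (toSys M l₀ v₀ inp out ne rd wr).traj w (t + 1)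
        set D := Finset.univ.sup (fun l => dep (M l)) with hD
        have h3 := stepAux_local (M l) v (tops D S) (fun k => (S k).drop D) (by
          intro k
          simp only [tops, List.length_take]
          by_cases h : D ≤ (S k).length
          · left; rw [min_eq_left h]; exact Finset.le_sup (f := fun l => dep (M l)) (Finset.mem_univ l)
          · right; exact List.drop_eq_nil_of_le (by omega))
        have h4 : (fun k => tops D S k ++ (S k).drop D) = S := by
          funext k; exact List.take_append_drop _ _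
        rw [h4] at h3
        have e1 : (toSys M l₀ v₀ inp out ne rd wr).D = D := rfl
        constructor
        · rw [tr.hq t (Nat.lt_succ_self t), i1, i2, e1, h3]
          rfl
        · funext k
          rw [tr.hS t (Nat.lt_succ_self t) k, i1, i2, e1, h3]
          rfl

end tm

end Pool.Agent.H77.OL
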