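import Pool.Agent.H77.RT.Phase

/-!
Two trajectories of the same local system that share the relevant parts of their stacks, running minima
of heights, and the potential that bounds the overlap of sibling intervals.
-/

namespace Pool.Agent.H77.OL

open Pool.Agent.H77.RT

section traj

variable {K : Type} {Γ : K → Type} {Q : Type} {D : ℕ}
  {F : Q → (∀ k, List (Γ k)) → Q × (∀ k, List (Γ k))}

/-- the part of a stack that is more than `D` below the minimum does not change -/
theorem bottom_persist {q : ℕ → Q} {S : ℕ → ∀ k, List (Γ k)} {T : ℕ} (hT : Traj D F q S T) {k : K}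
    {s t : ℕ} (hst : s ≤ t) (htT : t ≤ T) {μ : ℕ}
    (hμ : ∀ r, s ≤ r → r ≤ t → μ ≤ (S r k).length) :
    ∃ A A' R, S s k = A ++ R ∧ S t k = A' ++ R ∧ R.length = μ - D := by
  rcases Nat.lt_or_ge D μ with hD | hD
  · induction t, hst using Nat.le_induction with
    | base =>
      have h1 := hμ s le_rfl le_rfl
      refine ⟨(S s k).take ((S s k).length - (μ - D)), (S s k).take ((S s k).length - (μ - D)),
        (S s k).drop ((S s k).length - (μ - D)), (List.take_append_drop _ _).symm,
        (List.take_append_drop _ _).symm, ?_⟩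
      rw [List.length_drop]; omega
    | succ t hst ih =>
      obtain ⟨A, A', R, h1, h2, h3⟩ := ih (by omega) (fun r h h' => hμ r h (by omega))
      refine ⟨A, (F (q t) (tops D (S t))).2 k ++ A'.drop D, R, h1, ?_, h3⟩
      rw [hT.hS t (by omega) k]
      unfold repl
      have h4 := hμ t hst (by omega)
      rw [h2, List.length_append, h3] at h4
      rw [h2, List.drop_append_of_le_length (by omega), List.append_assoc]
  · exact ⟨S s k, S t k, [], by simp, by simp, by simp; omega⟩

/-- two trajectories that share a top part: the stacks in `E` are equal, the other ones have a common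
part above the bottoms `R`, `R'`, which are not touched -/
theorem sync {q q' : ℕ → Q} {S S' : ℕ → ∀ k, List (Γ k)} {T T' : ℕ} (hT : Traj D F q S T)
    (hT' : Traj D F q' S' T') {m m' n : ℕ} (h1 : m + n ≤ T) (h2 : m' + n ≤ T')
    (hq : q m = q' m') (E : K → Prop) (R R' : ∀ k, List (Γ k))
    (hE : ∀ k, E k → S m k = S' m' k)
    (hS : ∀ k, ¬ E k → ((∃ A, S m k = A ++ R k ∧ S' m' k = A ++ R' k) ∧
      ∀ r < n, (R k).length + D ≤ (S (m + r) k).length)) :
    q (m + n) = q' (m' + n) ∧ (∀ k, E k → S (m + n) k = S' (m' + n) k) ∧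
      ∀ k, ¬ E k → ∃ A, S (m + n) k = A ++ R k ∧ S' (m' + n) k = A ++ R' k := by
  induction n with
  | zero => exact ⟨hq, hE, fun k hk => (hS k hk).1⟩
  | succ n ih =>
    obtain ⟨ih1, ih2, ih3⟩ := ih (by omega) (by omega) (fun k hk =>
      ⟨(hS k hk).1, fun r hr => (hS k hk).2 r (by omega)⟩)
    have key : ∀ k, ¬ E k →
        ∃ A, D ≤ A.length ∧ S (m + n) k = A ++ R k ∧ S' (m' + n) k = A ++ R' k := by
      intro k hk
      obtain ⟨A, hA, hA'⟩ := ih3 k hk
      refine ⟨A, ?_, hA, hA'⟩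
      have h3 := (hS k hk).2 n (Nat.lt_succ_self n)
      rw [hA, List.length_append] at h3
      omega
    have htops : tops D (S (m + n)) = tops D (S' (m' + n)) := by
      funext k
      show (S (m + n) k).take D = (S' (m' + n) k).take D
      by_cases hk : E k
      · rw [ih2 k hk]
      · obtain ⟨A, hA, h, h'⟩ := key k hk
        rw [h, h', List.take_append_of_le_length hA, List.take_append_of_le_length hA]
    refine ⟨?_, fun k hk => ?_, fun k hk => ?_⟩
    · rw [← add_assoc, ← add_assoc, hT.hq (m + n) (by omega), hT'.hq (m' + n) (by omega), htops, ih1]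
    · rw [← add_assoc, ← add_assoc, hT.hS (m + n) (by omega) k, hT'.hS (m' + n) (by omega) k, htops,
        ih1, ih2 k hk]
    · rw [← add_assoc, ← add_assoc, hT.hS (m + n) (by omega) k, hT'.hS (m' + n) (by omega) k, htops,
        ih1]
      obtain ⟨A, hA, h, h'⟩ := key k hk
      refine ⟨(F (q' (m' + n)) (tops D (S' (m' + n)))).2 k ++ A.drop D, ?_, ?_⟩
      · rw [h]; unfold repl
        rw [List.drop_append_of_le_length hA, List.append_assoc]
      · rw [h']; unfold repl
        rw [List.drop_append_of_le_length hA, List.append_assoc]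

end traj

/-- minimum of `h` on `[s, t]` -/
def mn (h : ℕ → ℕ) (s t : ℕ) : ℕ := rmin (fun n => h (s + n)) (t - s)

theorem mn_le (h : ℕ → ℕ) {s r t : ℕ} (h1 : s ≤ r) (h2 : r ≤ t) : mn h s t ≤ h r := by
  have := rmin_le (fun n => h (s + n)) (r := r - s) (n := t - s) (by omega)
  simp only [show s + (r - s) = r by omega] at this
  exact this

theorem mn_exists (h : ℕ → ℕ) {s t : ℕ} (hst : s ≤ t) : ∃ r, s ≤ r ∧ r ≤ t ∧ mn h s t = h r := by
  obtain ⟨r, hr, h1⟩ := rmin_exists (fun n => h (s + n)) (t - s)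
  exact ⟨s + r, by omega, by omega, h1⟩

theorem mn_split (h : ℕ → ℕ) {s u t : ℕ} (h1 : s ≤ u) (h2 : u ≤ t) :
    mn h s t = min (mn h s u) (mn h u t) := by
  apply le_antisymm
  · apply le_min
    · obtain ⟨r, hr1, hr2, hr3⟩ := mn_exists h h1
      rw [hr3]; exact mn_le h hr1 (hr2.trans h2)
    · obtain ⟨r, hr1, hr2, hr3⟩ := mn_exists h h2
      rw [hr3]; exact mn_le h (h1.trans hr1) hr2
  · obtain ⟨r, hr1, hr2, hr3⟩ := mn_exists h (h1.trans h2)
    rw [hr3]
    rcases le_total r u with hru | hru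
    · exact (min_le_left _ _).trans (mn_le h hr1 hru)
    · exact (min_le_right _ _).trans (mn_le h hru hr2)

theorem le_of_incr {h : ℕ → ℕ} {P : ℕ} (hP : ∀ r, h (r + 1) ≤ h r + P) {s t : ℕ} (hst : s ≤ t) :
    h t ≤ h s + P * (t - s) := by
  induction t, hst using Nat.le_induction with
  | base => simp
  | succ t hst ih =>
    have h1 := hP t
    rw [Nat.succ_sub hst, Nat.mul_succ]
    omega

/-- potential of a time interval -/
def pot (h : ℕ → ℕ) (P s t : ℕ) : ℕ := P * (t - s) + mn h s t - h t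

theorem pot_cond {h : ℕ → ℕ} {P : ℕ} (hP : ∀ r, h (r + 1) ≤ h r + P) {s t : ℕ} (hst : s ≤ t) :
    h t ≤ P * (t - s) + mn h s t := by
  obtain ⟨r, hr1, hr2, hr3⟩ := mn_exists h hst
  have h1 := le_of_incr hP hr2
  have h2 : P * (t - r) ≤ P * (t - s) := Nat.mul_le_mul_left _ (by omega)
  omega

/-- the overlap of the sibling intervals `[s, u]` and `[u, t]` -/
def ovl (h : ℕ → ℕ) (s u t : ℕ) : ℕ := h u - max (mn h s u) (mn h u t)

theorem pot_split {h : ℕ → ℕ} {P : ℕ} (hP : ∀ r, h (r + 1) ≤ h r + P) {s u t : ℕ} (h1 : s ≤ u)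
    (h2 : u ≤ t) : pot h P s t = pot h P s u + pot h P u t + ovl h s u t := by
  unfold pot ovl
  have e1 := pot_cond hP (h1.trans h2)
  have e2 := pot_cond hP h1
  have e3 := pot_cond hP h2
  have e4 := mn_split h h1 h2
  have e5 := mn_le h h1 le_rfl
  have e6 := mn_le h le_rfl h2
  have e7 : P * (t - s) = P * (u - s) + P * (t - u) := by
    rw [← mul_add]; congr 1; omega
  rcases le_total (mn h s u) (mn h u t) with h3 | h3
  · rw [min_eq_left h3] at e4
    rw [max_eq_right h3]
    omega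
  · rw [min_eq_right h3] at e4
    rw [max_eq_left h3]
    omega

theorem pot_le (h : ℕ → ℕ) (P s t : ℕ) (hst : s ≤ t) : pot h P s t ≤ P * (t - s) := by
  unfold pot
  have := mn_le h hst le_rfl
  omega

/-- large overlaps at all pairs of `L` levels need much time -/
theorem tree {K : Type} [Fintype K] {h : K → ℕ → ℕ} {P : ℕ} (hP : ∀ k r, h k (r + 1) ≤ h k r + P)
    {τ : ℕ → ℕ} (hτ : Monotone τ) {i₀ L r : ℕ}
    (hov : ∀ i, i₀ ≤ i → i < i₀ + L → ∀ l, (l + 1) * 2 ^ (i + 1) ≤ 2 ^ (i₀ + L) →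
      2 ^ i ≤ r * ∑ k, ovl (h k) (τ (l * 2 ^ (i + 1))) (τ (l * 2 ^ (i + 1) + 2 ^ i))
        (τ (l * 2 ^ (i + 1) + 2 ^ (i + 1)))) :
    L * 2 ^ (i₀ + L) ≤ 2 * r * (Fintype.card K * P * τ (2 ^ (i₀ + L))) := by
  have key : ∀ j, j ≤ L → ∀ l, (l + 1) * 2 ^ (i₀ + j) ≤ 2 ^ (i₀ + L) →
      j * 2 ^ (i₀ + j) ≤ 2 * r * ∑ k, pot (h k) P (τ (l * 2 ^ (i₀ + j)))
        (τ (l * 2 ^ (i₀ + j) + 2 ^ (i₀ + j))) := by
    intro j
    induction j with
    | zero => intro _ l _; simp
    | succ j ih =>
      intro hj l hl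
      have e0 : 2 ^ (i₀ + (j + 1)) = 2 * 2 ^ (i₀ + j) := by rw [← add_assoc, pow_succ]; ring
      have h1 := hov (i₀ + j) (by omega) (by omega) l (by simpa only [add_assoc] using hl)
      rw [show i₀ + j + 1 = i₀ + (j + 1) by ring] at h1
      rw [e0] at h1 hl ⊢
      have ih' := ih (by omega)
      generalize 2 ^ (i₀ + j) = X at *
      generalize 2 ^ (i₀ + L) = Y at *
      have e1 : l * (2 * X) = (2 * l) * X := by ring
      have e2 : l * (2 * X) + X = (2 * l + 1) * X := by ring
      have e3 : l * (2 * X) + 2 * X = (2 * l + 1) * X + X := by ring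
      have i1 := ih' (2 * l) (by nlinarith)
      have i2 := ih' (2 * l + 1) (by nlinarith)
      rw [← e1] at i1
      rw [← e3, ← e2] at i2
      have hsplit : ∀ k, pot (h k) P (τ (l * (2 * X))) (τ (l * (2 * X) + 2 * X)) =
          pot (h k) P (τ (l * (2 * X))) (τ (l * (2 * X) + X)) +
          pot (h k) P (τ (l * (2 * X) + X)) (τ (l * (2 * X) + 2 * X)) +
          ovl (h k) (τ (l * (2 * X))) (τ (l * (2 * X) + X)) (τ (l * (2 * X) + 2 * X)) := by
        intro k
        apply pot_split (hP k)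
        · exact hτ (Nat.le_add_right _ _)
        · exact hτ (by omega)
      rw [Finset.sum_congr rfl (fun k _ => hsplit k), Finset.sum_add_distrib, Finset.sum_add_distrib]
      nlinarith
  have h1 := key L le_rfl 0 (by simp)
  rw [zero_mul, zero_add] at h1
  refine h1.trans (Nat.mul_le_mul_left _ ?_)
  calc ∑ k, pot (h k) P (τ 0) (τ (2 ^ (i₀ + L))) ≤ ∑ _k : K, P * τ (2 ^ (i₀ + L)) := by
        apply Finset.sum_le_sum
        intro k _
        exact (pot_le _ _ _ _ (hτ (Nat.zero_le _))).trans (Nat.mul_le_mul_left _ (Nat.sub_le _ _))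
    _ = Fintype.card K * P * τ (2 ^ (i₀ + L)) := by
        rw [Finset.sum_const, smul_eq_mul, Finset.card_univ]; ring

end Pool.Agent.H77.OL
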